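import Pool.Agent.Run7.h946.GL.EigMul

/-!
# The asymptotic form of the conjecture on the orders of the poles
-/

set_option autoImplicit false
set_option linter.unusedVariables false
set_option linter.unusedSectionVars false

open CategoryTheory AlgebraicGeometry CategoryTheory.Limits Filter Topology

universe u v

namespace Pool.Agent.Run7.h946.GL

open Pool.Agent.H914 Pool.Agent.H447 Pool.Agent.W534 Pool.Agent.Y163 Pool.Agent.R940 VarClass Obj
  WeilCohomology Module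

variable {k : Type u} [Field k] {𝒱 : VarClass k} {ops : CycleOps 𝒱}
  {W : WeilCohomology.{u, v} ops} {X Y Z U S : 𝒱.Obj} {p : ℕ} {Φ : FrobSystem W p}

lemma poleOrder_unique {σ : W.K →+* ℂ} {j r r' : ℕ} (h : PoleOrderIs Φ σ Z j r)
    (h' : PoleOrderIs Φ σ Z j r') : r = r' := by
  obtain ⟨t, ht, h⟩ := h
  obtain ⟨t', ht', h'⟩ := h'
  have h1 := h (t * t') (Nat.mul_pos ht ht') (dvd_mul_right _ _)
  have h2 := h' (t * t') (Nat.mul_pos ht ht') (dvd_mul_left _ _)
  rw [h1] at h2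
  have h3 := WithTop.coe_injective h2
  omega

/-- the formula for all powers determines the orders of the poles of the squares -/
lemma rank_of_formula {σ : W.K →+* ℂ} (hp : 1 < p) (hRH : ∀ Z : 𝒱.Obj, RiemannHyp Φ σ Z)
    (h : ∀ n j, j ≤ (pw X n).dim → PoleFormula Φ σ (pw X n) j) (n : ℕ) :
    numRank ops (sq X n) ((n + 1) * X.dim) =
      finrank W.K (genU Φ (sq X n) ((n + 1) * X.dim)) := by
  have hdim : (pw X (2 * n + 1)).dim = 2 * ((n + 1) * X.dim) := by
    rw [dim_pw]; ring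
  have h1 := h (2 * n + 1) ((n + 1) * X.dim) (by rw [hdim]; omega)
  rw [poleFormula_iff Φ hp σ (hRH _) (by rw [hdim]; omega)] at h1
  obtain ⟨t, ht, h1⟩ := h1
  obtain ⟨t₀, ht₀, h2⟩ : ∃ t₀, 0 < t₀ ∧ t₀ = (exists_stable Φ (pw X (2 * n + 1))
      ((n + 1) * X.dim)).choose :=
    ⟨_, (exists_stable Φ (pw X (2 * n + 1)) ((n + 1) * X.dim)).choose_spec.1, rfl⟩
  have h3 := h1 (t * t₀) (Nat.mul_pos ht ht₀) (dvd_mul_right _ _)
  rw [genU_eq Φ (Nat.mul_pos ht ht₀) (by rw [h2]; exact dvd_mul_left _ _)] at h3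
  rw [numRank_sq (W := W), finrank_genU_sq, ← h3, mrank_eq, hdim]
  congr 1
  omega

theorem asymptotic [hp : Fact p.Prime] [IsAlgClosed W.K] {σ : W.K →+* ℂ}
    (hRH : ∀ Z : 𝒱.Obj, RiemannHyp Φ σ Z) {D : X.Cycles} (hD : X.IsCyc 1 D) (hbig : Big ops X D)
    {ι : Type} [Fintype ι] (α : ι → W.K)
    (hα : (frob Φ X 1).charpoly = ∏ l, (Polynomial.X - Polynomial.C (α l))) :
    Nonempty ι ∧ (∃ (r : ℕ) (v : ι → Fin r → ℤ), Steps α v) ∧
    ∀ (r : ℕ) (v : ι → Fin r → ℤ), Steps α v → 0 < (cov v).det ∧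
      ∃ (z : ℕ → ℕ) (L : ℝ),
        (∀ n, PoleOrderIs Φ σ (sq X n) ((n + 1) * X.dim) (z n)) ∧
        (∀ n, z n = pairs v (n + 1)) ∧
        Tendsto (fun n => (z n : ℝ) * gauss v n) atTop (𝓝 1) ∧
        Tendsto (fun n => (numRank ops (sq X n) ((n + 1) * X.dim) : ℝ) * gauss v n) atTop (𝓝 L) ∧
        (L = 0 ∨ ∃ d : ℕ, 0 < d ∧ L = 1 / d ∧
          ∀ n, z n ≤ d * numRank ops (sq X n) ((n + 1) * X.dim)) ∧
        (L = 1 ↔ ∀ n j, j ≤ (pw X n).dim → PoleFormula Φ σ (pw X n) j) := by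
  classical
  obtain ⟨hα0, hpairs⟩ := pole_pairs Φ (hRH X) α hα
  have htr : W.tr X (W.cl X D ^ X.dim) ≠ 0 := hbig.tr hD
  have hnt : Nontrivial (W.H X) := by
    by_contra hcon
    rw [not_nontrivial_iff_subsingleton] at hcon
    apply htr
    rw [Subsingleton.elim (W.cl X D ^ X.dim) 0, map_zero]
  have hne : Nonempty ι := by
    by_contra hcon
    rw [not_nonempty_iff] at hcon
    have h1 := congrArg Polynomial.natDegree hα
    rw [LinearMap.charpoly_natDegree, Finset.univ_eq_empty, Finset.prod_empty,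
      Polynomial.natDegree_one] at h1
    exact (finrank_pos (R := W.K) (M := W.H X)).ne' h1
  refine ⟨hne, exists_steps α hα0, fun r v hv => ⟨det_cov_pos v hv.gen, ?_⟩⟩
  obtain ⟨z, hz1, hz2, hz3, -⟩ := tate_index' (W := W) hp.out.one_lt Φ σ hRH hD hbig
  have hz : ∀ n, z n = finrank W.K (genU Φ (sq X n) ((n + 1) * X.dim)) := fun n =>
    poleOrder_unique (hz1 n) (poleOrderIs hp.out.one_lt (hRH _) (by rw [dim_sq]; omega))
  have hzp : ∀ n, z n = pairs v (n + 1) := fun n => (hz n).trans (hpairs hv n)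
  have hzlim : Tendsto (fun n => (z n : ℝ) * gauss v n) atTop (𝓝 1) := by
    simp only [hzp]
    exact tendsto_gauss v hv.gen
  set R : ℕ → ℕ := fun n => numRank ops (sq X n) ((n + 1) * X.dim) with hR
  have hRpos : ∀ n, (0 : ℝ) < R n := fun n => by exact_mod_cast (hz2 n).1
  have hzpos : ∀ n, (0 : ℝ) < z n := fun n => by
    exact_mod_cast lt_of_lt_of_le (hz2 n).1 (hz2 n).2
  have hg : ∀ n, 0 < gauss v n := gauss_pos v hv.gen
  have hquot : ∀ c : ℝ, Tendsto (fun n => (z n : ℝ) / R n) atTop (𝓝 c) → c ≠ 0 →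
      Tendsto (fun n => (R n : ℝ) * gauss v n) atTop (𝓝 (1 / c)) := by
    intro c hc hc0
    have h1 := hzlim.div hc hc0
    refine h1.congr fun n => ?_
    have := (hRpos n).ne'
    have := (hzpos n).ne'
    simp only [Pi.div_apply]
    field_simp
  have hback : (∀ n j, j ≤ (pw X n).dim → PoleFormula Φ σ (pw X n) j) → ∀ n, z n = R n := by
    intro h n
    rw [hz, hR]
    exact (rank_of_formula hp.out.one_lt hRH h n).symm
  have huniq : ∀ L : ℝ, Tendsto (fun n => (R n : ℝ) * gauss v n) atTop (𝓝 L) →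
      (∀ n j, j ≤ (pw X n).dim → PoleFormula Φ σ (pw X n) j) → L = 1 := by
    intro L hL h
    have h1 := hback h
    refine tendsto_nhds_unique hL ?_
    refine hzlim.congr fun n => ?_
    rw [h1]
  rcases hz3 with h | ⟨d, hd, hd1, hd2⟩ | h
  · have h1 := hback h
    have h2 : Tendsto (fun n => (R n : ℝ) * gauss v n) atTop (𝓝 1) :=
      hzlim.congr fun n => by rw [h1]
    exact ⟨z, 1, hz1, hzp, hzlim, h2, Or.inr ⟨1, one_pos, by norm_num, fun n => by
      rw [one_mul]; exact (h1 n).le⟩, fun _ => h, fun _ => rfl⟩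
  · have h2 := hquot d hd2 (by positivity)
    refine ⟨z, 1 / d, hz1, hzp, hzlim, h2, Or.inr ⟨d, by omega, rfl, hd1⟩, ?_, huniq _ h2⟩
    intro h3
    exfalso
    have h4 : (2 : ℝ) ≤ d := by exact_mod_cast hd
    rw [div_eq_one_iff_eq (by positivity)] at h3
    linarith
  · have h2 : Tendsto (fun n => (R n : ℝ) * gauss v n) atTop (𝓝 0) := by
      have h3 := hzlim.div_atTop h
      refine h3.congr fun n => ?_
      have := (hRpos n).ne'
      have := (hzpos n).ne'
      field_simp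
      rfl
    refine ⟨z, 0, hz1, hzp, hzlim, h2, Or.inl rfl, ?_, huniq _ h2⟩
    intro h3
    exact absurd h3 zero_ne_one

end Pool.Agent.Run7.h946.GL
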