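import Pool.Agent.Run7.h946.GL.Strict
import Pool.Agent.R940.Gen

/-!
# Numerically trivial classes and chains of stable families
-/

set_option autoImplicit false
set_option linter.unusedVariables false
set_option linter.unusedSectionVars false

open CategoryTheory AlgebraicGeometry CategoryTheory.Limits Filter Topology

universe u v

namespace Pool.Agent.Run7.h946.GL

open Pool.Agent.H914 Pool.Agent.H447 Pool.Agent.W534 Pool.Agent.Y163 VarClass Obj
  WeilCohomology Module

variable {k : Type u} [Field k] {𝒱 : VarClass k} {ops : CycleOps 𝒱}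
  {W : WeilCohomology.{u, v} ops} {X Y Z U S P : 𝒱.Obj}

/-! ### Algebraic operators -/

/-- The push-forward under a morphism is an algebraic correspondence. -/
lemma push_mem_KOp (f : X ⟶ Y) : (W.push f) ∈ KOp W X Y ((Y.dim : ℤ) - X.dim) := by
  have h1 : (W.push f) = W.corr (W.cl _ (ops.push (Obj.lift (𝟙 X) f) X.V.fundCycle)) := by
    apply LinearMap.ext
    intro a
    rw [W.cl_push, W.cl_fund, corr_apply, ← W.push_mul, one_mul, ← W.push_comp, ← W.map_comp]
    have e1 : Obj.lift (𝟙 X) f ≫ snd X Y = f := Obj.lift_snd _ _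
    have e2 : Obj.lift (𝟙 X) f ≫ fst X Y = 𝟙 X := Obj.lift_fst _ _
    rw [e1, e2, W.map_id]
  rw [h1]
  refine KOp.gen (p := Y.dim) (by ring) ?_
  exact ops.push_mem _ X.V.fundCycle_mem (by simp only [dim_prod]; ring)

/-- The multiplication by an algebraic class is an algebraic correspondence. -/
lemma mulLeft_mem_KOp {a : ℕ} {c : W.H X} (hc : c ∈ spanCycles W X a) :
    LinearMap.mulLeft W.K c ∈ KOp W X X a := by
  have h1 : LinearMap.mulLeft W.K c = W.corr (W.push (diag X) c) := by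
    apply LinearMap.ext
    intro x
    rw [corr_diag, LinearMap.mulLeft_apply]
  rw [mem_KOp_iff]
  refine ⟨_, ?_, h1.symm⟩
  have h2 : W.push (diag X) c ∈ (spanS W).T (X.prod X) (X.dim + a) :=
    (spanS W).push (diag X) hc (by rw [dim_prod]; ring)
  have h3 : W.push (diag X) c ∈ spanCycles W (X.prod X) ((X.dim + a : ℕ) : ℤ) := h2
  rwa [Nat.cast_add] at h3

/-- the exterior product with a class -/
noncomputable def ext (P : 𝒱.Obj) (y : W.H S) : W.H P →ₗ[W.K] W.H (S.prod P) :=
  LinearMap.mulLeft W.K (W.map (fst S P) y) ∘ₗ (W.map (snd S P)).toLinearMap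

/-- the contraction with a class -/
noncomputable def contr (P : 𝒱.Obj) (y : W.H S) : W.H (S.prod P) →ₗ[W.K] W.H P :=
  W.push (snd S P) ∘ₗ LinearMap.mulLeft W.K (W.map (fst S P) y)

lemma ext_apply (y : W.H S) (x : W.H P) : ext P y x = W.map (fst S P) y * W.map (snd S P) x := rfl

lemma contr_ext (y' y : W.H S) (x : W.H P) :
    contr P y' (ext P y x) = W.tr S (y' * y) • x := by
  change W.push (snd S P) (W.map (fst S P) y' * (W.map (fst S P) y * W.map (snd S P) x)) = _
  rw [← mul_assoc, ← map_mul, push_snd]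

lemma ext_mem {a : ℕ} {y : W.H S} (hy : y ∈ spanCycles W S a) :
    ext P y ∈ KOp W P (S.prod P) a :=
  KOp.cast (KOp.comp (mulLeft_mem_KOp (map_span (fst S P) hy)) (map_mem_KOp (snd S P))) (by ring)

lemma contr_mem {a : ℕ} {y : W.H S} (hy : y ∈ spanCycles W S a) :
    contr P y ∈ KOp W (S.prod P) P ((a : ℤ) - S.dim) :=
  KOp.cast (KOp.comp (push_mem_KOp (snd S P)) (mulLeft_mem_KOp (map_span (fst S P) hy)))
    (by rw [dim_prod]; push_cast; ring)

lemma ext_ne {y : W.H S} (hy : y ≠ 0) {x : W.H P} (hx : x ≠ 0) : ext P y x ≠ 0 := by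
  intro h0
  have h1 : ∀ y', W.tr S (y' * y) = 0 := by
    intro y'
    have h2 := contr_ext (P := P) y' y x
    rw [h0, map_zero] at h2
    exact (smul_eq_zero.1 h2.symm).resolve_right hx
  exact hy (nondeg_right h1)

lemma corr_mulLeft (ξ : W.H X) (c : W.H (X.prod Y)) {p : ℕ} (hξ : ξ ∈ W.gr X (2 * p)) :
    W.corr c ∘ₗ LinearMap.mulLeft W.K ξ = W.corr (W.map (fst X Y) ξ * c) := by
  apply LinearMap.ext
  intro a
  rw [corr_apply, LinearMap.comp_apply, LinearMap.mulLeft_apply, corr_apply,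
    W.even_comm (W.map_mem _ hξ), mul_assoc, ← map_mul (W.map (fst X Y))]

/-- the numerically trivial classes of codimension `c` on a variety of dimension `2 c` -/
def NumTriv (y : W.H S) (c : ℕ) : Prop :=
  ∀ w ∈ spanCycles W S c, W.tr S (y * w) = 0

/-- Composition of the exterior product with a numerically trivial class gives elements of the
radical. -/
theorem comp_ext_mem_rad (hpar : par (W.isInternal P) ∈ KOp W P P 0) {c : ℕ}
    (hS : S.dim = 2 * c) {y : W.H S} (hy : y ∈ spanCycles W S c) (hnum : NumTriv y c)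
    {ψ : W.H (S.prod P) →ₗ[W.K] W.H P} (hψ : ψ ∈ KOp W (S.prod P) P (-(c : ℤ))) :
    ψ ∘ₗ ext P y ∈ rad (KAlg W P) := by
  refine ⟨KOp.cast (KOp.comp hψ (ext_mem hy)) (by ring), fun g hg => ?_⟩
  rw [LinearMap.trace_mul_comm]
  -- insert the parity operator
  have h1 : g * (ψ ∘ₗ ext P y) =
      par (W.isInternal P) ∘ₗ ((par (W.isInternal P) ∘ₗ g ∘ₗ ψ) ∘ₗ ext P y) := by
    have h2 := Pool.Agent.H914.par_mul_par (W.isInternal P)
    apply LinearMap.ext
    intro x
    have h3 := congrArg (fun f => f (g (ψ (ext P y x)))) h2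
    simp only [Module.End.mul_apply, Module.End.one_apply] at h3
    simp only [Module.End.mul_apply, LinearMap.comp_apply, h3]
  rw [h1]
  have h4 : par (W.isInternal P) ∘ₗ g ∘ₗ ψ ∈ KOp W (S.prod P) P (-(c : ℤ)) :=
    KOp.cast (KOp.comp hpar (KOp.comp (mem_KAlg.1 hg) hψ)) (by ring)
  obtain ⟨γ, hγ, h5⟩ := mem_KOp_iff.1 h4
  obtain ⟨δ, hδ, h6⟩ := mem_KOp_iff.1 (map_mem_KOp (W := W) (snd S P))
  have hyg : y ∈ W.gr S (2 * c) := span_gr hy
  have h7 : (par (W.isInternal P) ∘ₗ g ∘ₗ ψ) ∘ₗ ext P y =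
      W.corr (W.map (fst (S.prod P) P) (W.map (fst S P) y) * γ) ∘ₗ W.corr δ := by
    rw [ext, ← LinearMap.comp_assoc, ← h5, corr_mulLeft _ _ (W.map_mem _ hyg), h6]
  have hγ' : γ ∈ spanCycles W ((S.prod P).prod P) ((c + P.dim : ℕ) : ℤ) := by
    have : (((S.prod P).dim : ℤ) + -(c : ℤ)) = ((c + P.dim : ℕ) : ℤ) := by
      rw [dim_prod]; push_cast; rw [hS]; push_cast; ring
    rw [this] at hγ
    exact hγ
  have hδ' : δ ∈ spanCycles W (P.prod (S.prod P)) ((P.dim : ℕ) : ℤ) := by
    rwa [add_zero] at hδ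
  have h8 : W.map (swap P (S.prod P)) (W.map (swap (S.prod P) P) δ) = δ := by
    rw [← W.map_comp]
    have : swap P (S.prod P) ≫ swap (S.prod P) P = 𝟙 _ := by
      apply prod_hom_ext
      · rw [Category.assoc, swap_fst, swap_snd, Category.id_comp]
      · rw [Category.assoc, swap_snd, swap_fst, Category.id_comp]
    rw [this, W.map_id]
  have hgr : W.map (fst (S.prod P) P) (W.map (fst S P) y) * γ ∈
      W.gr ((S.prod P).prod P) (2 * (c + (c + P.dim))) := by
    have := W.mul_mem (W.map_mem (fst (S.prod P) P) (W.map_mem (fst S P) hyg)) (span_gr hγ')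
    rwa [show 2 * c + 2 * (c + P.dim) = 2 * (c + (c + P.dim)) by ring] at this
  have h9 := tr_mul_eq_trace' hgr (W.map (swap (S.prod P) P) δ)
  rw [h8] at h9
  rw [h7, ← h9]
  -- the projection formula
  have h10 : W.map (fst (S.prod P) P) (W.map (fst S P) y) =
      W.map (fst (S.prod P) P ≫ fst S P) y := (W.map_comp _ _ _).symm
  have h11 : γ * W.map (swap (S.prod P) P) δ ∈
      spanCycles W ((S.prod P).prod P) (((c + P.dim) + P.dim : ℕ) : ℤ) := by
    have := Pool.Agent.R940.span_mul hγ' (map_span (swap (S.prod P) P) hδ')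
    rwa [← Nat.cast_add] at this
  have h12 : W.push (fst (S.prod P) P ≫ fst S P) (γ * W.map (swap (S.prod P) P) δ) ∈
      spanCycles W S (c : ℤ) :=
    (spanS W).push (fst (S.prod P) P ≫ fst S P) h11 (by
      rw [dim_prod, dim_prod, hS]; ring)
  rw [h10, mul_assoc, W.even_comm (W.map_mem _ hyg), ← W.tr_push, ← W.even_comm hyg]
  exact hnum _ h12

end Pool.Agent.Run7.h946.GL
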