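import Pool.Agent.Run7.h946.GL.Chain

/-!
# Bounded index implies that homological and numerical equivalence agree
-/

set_option autoImplicit false
set_option linter.unusedVariables false
set_option linter.unusedSectionVars false

open CategoryTheory AlgebraicGeometry CategoryTheory.Limits Filter Topology

universe u v

namespace Pool.Agent.Run7.h946.GL

open Pool.Agent.H914 Pool.Agent.H447 Pool.Agent.W534 Pool.Agent.Y163 VarClass Obj
  WeilCohomology Module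

variable {k : Type u} [Field k] {𝒱 : VarClass k} {ops : CycleOps 𝒱}
  {W : WeilCohomology.{u, v} ops} {X Y Z U S P : 𝒱.Obj}

/-! ### Families generated by one class -/

/-- the classes obtained from one class by algebraic correspondences -/
noncomputable def cyc (X P : 𝒱.Obj) (a : ℕ) (y : W.H P) (n : ℕ) : Submodule W.K (W.H (sq X n)) :=
  (KOp W P (sq X n) ((((n + 1) * X.dim : ℕ) : ℤ) - a)).map (LinearMap.applyₗ y)

lemma mem_cyc {a : ℕ} {y : W.H P} {n : ℕ} {x : W.H (sq X n)} :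
    x ∈ cyc X P a y n ↔ ∃ φ ∈ KOp W P (sq X n) ((((n + 1) * X.dim : ℕ) : ℤ) - a), φ y = x :=
  Iff.rfl

lemma cyc_stable (a : ℕ) (y : W.H P) : Stable W X (cyc X P a y) := by
  intro κ n φ hφ t ht
  obtain ⟨ψ, hψ, rfl⟩ := mem_cyc.1 ht
  exact mem_cyc.2 ⟨φ ∘ₗ ψ, KOp.cast (KOp.comp hφ hψ) (by push_cast; ring), rfl⟩

lemma cyc_le {a : ℕ} {y : W.H P} (hy : y ∈ spanCycles W P a) (n : ℕ) :
    cyc X P a y n ≤ spanCycles W (sq X n) (((n + 1) * X.dim : ℕ) : ℤ) := by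
  intro x hx
  obtain ⟨φ, hφ, rfl⟩ := mem_cyc.1 hx
  exact (spanS W).stable hφ (by ring) hy

/-! ### Iterated exterior products -/

/-- iterated exterior products -/
noncomputable def yy (y : W.H S) : ∀ j, W.H (pw S j)
  | 0 => y
  | j + 1 => ext (pw S j) y (yy y j)

lemma yy_ne {y : W.H S} (hy : y ≠ 0) : ∀ j, yy y j ≠ 0
  | 0 => hy
  | j + 1 => ext_ne hy (yy_ne hy j)

lemma yy_mem {c : ℕ} {y : W.H S} (hy : y ∈ spanCycles W S c) :
    ∀ j, yy y j ∈ spanCycles W (pw S j) (((j + 1) * c : ℕ) : ℤ)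
  | 0 => by
    rw [zero_add, one_mul]; exact hy
  | j + 1 => (spanS W).stable (ext_mem (P := pw S j) hy) (by push_cast; ring) (yy_mem hy j)

lemma cyc_succ_le {c : ℕ} {y : W.H S} (hy : y ∈ spanCycles W S c) (j n : ℕ) :
    cyc X (pw S (j + 1)) ((j + 2) * c) (yy y (j + 1)) n ≤
      cyc X (pw S j) ((j + 1) * c) (yy y j) n := by
  intro x hx
  obtain ⟨φ, hφ, rfl⟩ := mem_cyc.1 hx
  exact mem_cyc.2 ⟨φ ∘ₗ ext (pw S j) y, KOp.cast (KOp.comp hφ (ext_mem hy))
    (by push_cast; ring), rfl⟩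

/-! ### Levels -/

/-- the splitting of the squares of the powers -/
noncomputable def sqSplit (X : 𝒱.Obj) (κ n : ℕ) : sq X (κ + n + 1) ≅ (sq X κ).prod (sq X n) :=
  pwIso X (κ + n + 1) (κ + n + 1) ≪≫
    eqToIso (by rw [show κ + n + 1 + 1 + (κ + n + 1) = κ + 1 + κ + 1 + (n + 1 + n) by ring]) ≪≫
    (pwIso X (κ + 1 + κ) (n + 1 + n)).symm ≪≫ prodIso (pwIso X κ κ).symm (pwIso X n n).symm

/-- the levels -/
def lv (κ : ℕ) : ℕ → ℕ
  | 0 => κ
  | j + 1 => κ + lv κ j + 1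

lemma lv_eq (κ : ℕ) : ∀ j, lv κ j + 1 = (j + 1) * (κ + 1)
  | 0 => by rw [lv]; ring
  | j + 1 => by
    have := lv_eq κ j
    rw [lv]
    have h : κ + lv κ j + 1 + 1 = (κ + 1) + (lv κ j + 1) := by ring
    rw [h, this]; ring

/-- the powers of the square of a power -/
noncomputable def pwSq (X : 𝒱.Obj) (κ : ℕ) : ∀ j, pw (sq X κ) j ≅ sq X (lv κ j)
  | 0 => Iso.refl _
  | j + 1 => prodIso (Iso.refl _) (pwSq X κ j) ≪≫ (sqSplit X κ (lv κ j)).symm

/-- algebraic classes with nonzero self-intersection number -/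
lemma exists_self {D : X.Cycles} (hD : X.IsCyc 1 D) (h : W.tr X (W.cl X D ^ X.dim) ≠ 0) (l : ℕ) :
    ∃ w ∈ spanCycles W (sq X l) (((l + 1) * X.dim : ℕ) : ℤ),
      ∃ w' ∈ spanCycles W (sq X l) (((l + 1) * X.dim : ℕ) : ℤ), W.tr (sq X l) (w' * w) = 1 := by
  obtain ⟨E, hE, hE2⟩ := exists_big hD h l
  obtain ⟨G, hG, hG2⟩ := exists_big_prod hE hE2 hE hE2
  have hm : W.cl (sq X l) G ^ ((l + 1) * X.dim) ∈
      spanCycles W (sq X l) (((l + 1) * X.dim : ℕ) : ℤ) := by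
    rw [← cl_divPow_fund]
    exact mem_span_cl (divPow_fund_mem hG _)
  refine ⟨_, hm, (W.tr (sq X l) (W.cl (sq X l) G ^ (sq X l).dim))⁻¹ •
    W.cl (sq X l) G ^ ((l + 1) * X.dim), Submodule.smul_mem _ _ hm, ?_⟩
  rw [smul_mul_assoc, map_smul, ← pow_add, smul_eq_mul]
  have h1 : (l + 1) * X.dim + (l + 1) * X.dim = (sq X l).dim := by rw [dim_sq]; ring
  rw [h1]
  exact inv_mul_cancel₀ hG2

/-- Strict inclusions of the families at all large levels. -/
theorem not_cyc_le (hX : par (W.isInternal X) ∈ KOp W X X 0) {D : X.Cycles} (hD : X.IsCyc 1 D)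
    (hDX : W.tr X (W.cl X D ^ X.dim) ≠ 0) {κ : ℕ} {y : W.H (sq X κ)}
    (hy : y ∈ spanCycles W (sq X κ) (((κ + 1) * X.dim : ℕ) : ℤ)) (hy0 : y ≠ 0)
    (hnum : NumTriv y ((κ + 1) * X.dim)) (j n : ℕ) (hn : lv κ j + 1 ≤ n) :
    ¬ cyc X (pw (sq X κ) j) ((j + 1) * ((κ + 1) * X.dim)) (yy y j) n ≤
      cyc X (pw (sq X κ) (j + 1)) ((j + 2) * ((κ + 1) * X.dim)) (yy y (j + 1)) n := by
  intro hle
  obtain ⟨l, rfl⟩ : ∃ l, n = l + lv κ j + 1 := ⟨n - (lv κ j + 1), by omega⟩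
  obtain ⟨w, hw, w', hw', hww⟩ := exists_self hD hDX l
  let E : sq X (l + lv κ j + 1) ≅ (sq X l).prod (pw (sq X κ) j) :=
    sqSplit X l (lv κ j) ≪≫ prodIso (Iso.refl _) (pwSq X κ j).symm
  have hlv := lv_eq κ j
  have hlv' : ((lv κ j : ℤ) + 1) = ((j : ℤ) + 1) * ((κ : ℤ) + 1) := by exact_mod_cast hlv
  -- the embedding
  have h1 : (W.map E.hom).toLinearMap ∘ₗ ext (pw (sq X κ) j) w ∈
      KOp W (pw (sq X κ) j) (sq X (l + lv κ j + 1)) (((l + 1) * X.dim : ℕ) : ℤ) :=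
    KOp.cast (KOp.comp (map_mem_KOp E.hom) (ext_mem hw)) (by ring)
  have h2 : contr (pw (sq X κ) j) w' ∘ₗ (W.map E.inv).toLinearMap ∈
      KOp W (sq X (l + lv κ j + 1)) (pw (sq X κ) j) (-(((l + 1) * X.dim : ℕ) : ℤ)) :=
    KOp.cast (KOp.comp (contr_mem hw') (map_mem_KOp E.inv)) (by
      rw [dim_sq]; push_cast; ring)
  have h3 : ∀ x, (contr (pw (sq X κ) j) w' ∘ₗ (W.map E.inv).toLinearMap)
      (((W.map E.hom).toLinearMap ∘ₗ ext (pw (sq X κ) j) w) x) = x := by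
    intro x
    change contr (pw (sq X κ) j) w' (W.map E.inv (W.map E.hom (ext (pw (sq X κ) j) w x))) = x
    rw [← W.map_comp, E.inv_hom_id, W.map_id, contr_ext, hww, one_smul]
  have h4 : ((W.map E.hom).toLinearMap ∘ₗ ext (pw (sq X κ) j) w) (yy y j) ∈
      cyc X (pw (sq X κ) j) ((j + 1) * ((κ + 1) * X.dim)) (yy y j) (l + lv κ j + 1) := by
    refine mem_cyc.2 ⟨_, KOp.cast h1 ?_, rfl⟩
    push_cast
    linear_combination (-(X.dim : ℤ)) * hlv'
  obtain ⟨φ, hφ, h5⟩ := mem_cyc.1 (hle h4)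
  have h6 : (contr (pw (sq X κ) j) w' ∘ₗ (W.map E.inv).toLinearMap) ∘ₗ φ ∈
      KOp W ((sq X κ).prod (pw (sq X κ) j)) (pw (sq X κ) j)
        (-(((κ + 1) * X.dim : ℕ) : ℤ)) := by
    refine KOp.cast (KOp.comp h2 hφ) ?_
    push_cast
    linear_combination (X.dim : ℤ) * hlv'
  have hpar : par (W.isInternal (pw (sq X κ) j)) ∈ KOp W (pw (sq X κ) j) (pw (sq X κ) j) 0 :=
    par_pw_mem (par_prod_mem (par_pw_mem hX κ) (par_pw_mem hX κ)) j
  have h7 := comp_ext_mem_rad hpar (dim_sq X κ) hy hnum h6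
  have h8 : (((contr (pw (sq X κ) j) w' ∘ₗ (W.map E.inv).toLinearMap) ∘ₗ φ) ∘ₗ
      ext (pw (sq X κ) j) y) (yy y j) = yy y j := by
    have h9 := h3 (yy y j)
    rw [← h5] at h9
    exact h9
  exact yy_ne hy0 j (nakayama (KAlg W (pw (sq X κ) j)) (fun _ : Unit => yy y j) (fun _ _ => _)
    (fun _ _ => h7) (fun _ => by
      simp only [Finset.univ_unique, Finset.sum_singleton]
      exact h8.symm) ())

/-- **Bounded index implies nondegeneracy.** -/
theorem nondeg_mid [IsAlgClosed W.K] (hX : par (W.isInternal X) ∈ KOp W X X 0)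
    (hH : 0 < finrank W.K (W.H X)) {D : X.Cycles} (hD : X.IsCyc 1 D)
    (hDX : W.tr X (W.cl X D ^ X.dim) ≠ 0) {d : ℕ}
    (hd : ∀ n, finrank W.K (spanCycles W (sq X n) (((n + 1) * X.dim : ℕ) : ℤ)) ≤
      d * mrank W X n) {κ : ℕ} {y : W.H (sq X κ)}
    (hy : y ∈ spanCycles W (sq X κ) (((κ + 1) * X.dim : ℕ) : ℤ))
    (hnum : NumTriv y ((κ + 1) * X.dim)) : y = 0 := by
  by_contra hy0
  have hpos : ∀ n, (0 : ℝ) < mrank W X n := by
    intro n
    have h1 := mrank_growth hX n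
    have h0 : 0 < mrank W X n := by
      apply Nat.pos_of_ne_zero
      intro h0
      rw [h0, zero_mul] at h1
      have h2 : 0 < (finrank W.K (W.H X) ^ 2) ^ (n + 1) := by positivity
      omega
    exact_mod_cast h0
  set T : ∀ j n, Submodule W.K (W.H (sq X n)) := fun j =>
    cyc X (pw (sq X κ) j) ((j + 1) * ((κ + 1) * X.dim)) (yy y j) with hT
  have hlim : ∀ j, ∃ D : ℕ,
      Tendsto (fun n => (finrank W.K (T j n) : ℝ) / mrank W X n) atTop (𝓝 D) := by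
    intro j
    rcases index_law hX hH (T j) (cyc_stable _ _) with ⟨D, -, h⟩ | h
    · exact ⟨D, h⟩
    · exfalso
      obtain ⟨n, hn⟩ := (h.eventually (eventually_gt_atTop (d : ℝ))).exists
      rw [lt_div_iff₀ (hpos n)] at hn
      have h1 : finrank W.K (T j n) ≤ d * mrank W X n :=
        (Submodule.finrank_mono (cyc_le (yy_mem hy j) n)).trans (hd n)
      have h2 : (finrank W.K (T j n) : ℝ) ≤ d * mrank W X n := by exact_mod_cast h1
      linarith
  choose D' hD' using hlim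
  have hstep : ∀ j, D' (j + 1) + 1 ≤ D' j := fun j =>
    index_strict hX hH (cyc_stable _ _) (cyc_stable _ _) (fun n => cyc_succ_le hy j n)
      (fun n hn => not_cyc_le hX hD hDX hy hy0 hnum j n hn) (hD' (j + 1)) (hD' j)
  have hall : ∀ j, D' j + j ≤ D' 0 := by
    intro j
    induction j with
    | zero => rfl
    | succ j ih =>
      have := hstep j
      omega
  have := hall (D' 0 + 1)
  omega

end Pool.Agent.Run7.h946.GL
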