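import Mathlib
import Pool.Agent.R940.Gen

/-!
# Multiplicative relations between the quotients of numbers, as vectors
-/

set_option autoImplicit false

open Module nonZeroDivisors

namespace Pool.Agent.Run7.h946.GL

/-- The vectors `v l` describe the multiplicative relations between the quotients of the numbers `α l`
modulo roots of unity: the differences of the vectors generate `ℤ ^ k`, and, for all integers `m l` with sum
zero, the product of the `α l ^ m l` is a root of unity if and only if `∑ m l v l = 0`. -/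
structure Steps {K ι : Type*} [Field K] [Fintype ι] (α : ι → K) {k : ℕ} (v : ι → Fin k → ℤ) :
    Prop where
  gen : AddSubgroup.closure {w | ∃ l m, w = v l - v m} = ⊤
  rel : ∀ m : ι → ℤ, ∑ l, m l = 0 →
    ((∃ s : ℕ, 0 < s ∧ (∏ l, α l ^ m l) ^ s = 1) ↔ ∑ l, m l • v l = 0)

/-- such vectors exist -/
theorem exists_steps {K ι : Type*} [Field K] [Fintype ι] [Nonempty ι] (α : ι → K)
    (hα : ∀ l, α l ≠ 0) : ∃ (k : ℕ) (v : ι → Fin k → ℤ), Steps α v := by
  classical
  let M := Additive Kˣ
  let T : Submodule ℤ M := Submodule.torsion ℤ M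
  let a : ι → M := fun l => Additive.ofMul (Units.mk0 (α l) (hα l))
  let g : ι → M ⧸ T := fun l => Submodule.Quotient.mk (a l)
  let S : Set (M ⧸ T) := Set.range fun x : ι × ι => g x.1 - g x.2
  let M0 : Submodule ℤ (M ⧸ T) := Submodule.span ℤ S
  have hfin : Module.Finite ℤ M0 := Module.Finite.span_of_finite ℤ (Set.finite_range _)
  have htf : Module.IsTorsionFree ℤ M0 := inferInstance
  let b := Module.finBasis ℤ M0
  obtain ⟨l0⟩ := ‹Nonempty ι›
  have hmem : ∀ l m, g l - g m ∈ M0 := fun l m => Submodule.subset_span ⟨(l, m), rfl⟩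
  let w : ι → M0 := fun l => ⟨g l - g l0, hmem l l0⟩
  refine ⟨finrank ℤ M0, fun l => b.equivFun (w l), ?_, ?_⟩
  · rw [eq_top_iff]
    intro z _
    have key : ∀ (x : M ⧸ T) (hx : x ∈ M0), b.equivFun ⟨x, hx⟩ ∈
        AddSubgroup.closure {z | ∃ l m, z = b.equivFun (w l) - b.equivFun (w m)} := by
      intro x hx
      induction hx using Submodule.span_induction with
      | mem x hx =>
        obtain ⟨⟨l, m⟩, rfl⟩ := hx
        refine AddSubgroup.subset_closure ⟨l, m, ?_⟩
        rw [← map_sub]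
        congr 1
        apply Subtype.ext
        change g l - g m = (g l - g l0) - (g m - g l0)
        abel
      | zero =>
        have : (⟨0, Submodule.zero_mem _⟩ : M0) = 0 := rfl
        rw [this, map_zero]
        exact AddSubgroup.zero_mem _
      | add x y hx hy h1 h2 =>
        have : (⟨x + y, Submodule.add_mem _ hx hy⟩ : M0) = ⟨x, hx⟩ + ⟨y, hy⟩ := rfl
        rw [this, map_add]
        exact AddSubgroup.add_mem _ h1 h2
      | smul c x hx h1 =>
        have : (⟨c • x, Submodule.smul_mem _ _ hx⟩ : M0) = c • ⟨x, hx⟩ := rfl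
        rw [this, map_smul]
        exact AddSubgroup.zsmul_mem _ h1 c
    have h1 := key (b.equivFun.symm z).1 (b.equivFun.symm z).2
    rwa [Subtype.coe_eta, LinearEquiv.apply_symm_apply] at h1
  · intro m hm
    have h1 : ∑ l, m l • b.equivFun (w l) = b.equivFun (∑ l, m l • w l) := by
      rw [map_sum]; simp only [map_smul]
    rw [h1, LinearEquiv.map_eq_zero_iff]
    have h2 : (∑ l, m l • w l = 0) ↔ ∑ l, m l • a l ∈ T := by
      rw [← Submodule.coe_eq_zero, ← Submodule.Quotient.mk_eq_zero]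
      have h3 : ((∑ l, m l • w l : M0) : M ⧸ T) = Submodule.Quotient.mk (∑ l, m l • a l) := by
        rw [AddSubmonoidClass.coe_finsetSum]
        have h4 : ∀ l, ((m l • w l : M0) : M ⧸ T) = m l • g l - m l • g l0 := by
          intro l
          rw [← smul_sub]
          rfl
        simp only [h4]
        rw [Finset.sum_sub_distrib, ← Finset.sum_smul, hm, zero_smul, sub_zero]
        have h5 : ∀ x, (Submodule.Quotient.mk x : M ⧸ T) = T.mkQ x := fun _ => rfl
        simp only [g, h5, map_sum, map_zsmul]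
      rw [h3]
    rw [h2, Submodule.mem_torsion_iff]
    have h6 : ∀ c : ℤ, c • ∑ l, m l • a l = 0 ↔ (∏ l, α l ^ m l) ^ c = 1 := by
      intro c
      have h7 : ∑ l, m l • a l = Additive.ofMul (∏ l, (Units.mk0 (α l) (hα l)) ^ m l) := rfl
      rw [h7, ← ofMul_zpow, ofMul_eq_zero, ← Units.val_eq_one, Units.val_zpow_eq_zpow_val]
      simp
    constructor
    · rintro ⟨s, hs, h⟩
      refine ⟨⟨(s : ℤ), mem_nonZeroDivisors_of_ne_zero (by exact_mod_cast hs.ne')⟩, ?_⟩
      change (s : ℤ) • ∑ l, m l • a l = 0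
      rw [h6, zpow_natCast, h]
    · rintro ⟨⟨c, hc⟩, h⟩
      change c • ∑ l, m l • a l = 0 at h
      rw [h6] at h
      have hc0 : c ≠ 0 := nonZeroDivisors.ne_zero hc
      refine ⟨c.natAbs, Int.natAbs_pos.2 hc0, ?_⟩
      rcases Int.natAbs_eq c with h8 | h8
      · rw [h8, zpow_natCast] at h
        exact h
      · rw [h8, zpow_neg, zpow_natCast, inv_eq_one] at h
        exact h

open Pool.Agent.R940 in
/-- words and sums of vectors -/
theorem Steps.words_iff {K ι : Type*} [Field K] [Fintype ι] {α : ι → K} (hα : ∀ l, α l ≠ 0)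
    {k : ℕ} {v : ι → Fin k → ℤ} (h : Steps α v) {N : ℕ} (I J : Fin N → ι) :
    (∃ s : ℕ, 0 < s ∧ (∏ t, α (I t)) ^ s = (∏ t, α (J t)) ^ s) ↔
      ∑ t, v (I t) = ∑ t, v (J t) := by
  classical
  have h1 : ∑ l, ((cnt I l : ℤ) - cnt J l) = 0 := by
    rw [Finset.sum_sub_distrib]
    have h2 := sum_cnt_one I
    have h3 := sum_cnt_one J
    have h4 : ∑ l, (cnt I l : ℤ) = N := by exact_mod_cast h2
    have h5 : ∑ l, (cnt J l : ℤ) = N := by exact_mod_cast h3
    rw [h4, h5, sub_self]
  have h2 := h.rel (fun l => (cnt I l : ℤ) - cnt J l) h1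
  have h3 : ∑ l, ((cnt I l : ℤ) - cnt J l) • v l = ∑ t, v (I t) - ∑ t, v (J t) := by
    rw [sum_cnt I, sum_cnt J, ← Finset.sum_sub_distrib]
    refine Finset.sum_congr rfl fun l _ => ?_
    rw [sub_smul, natCast_zsmul, natCast_zsmul]
  have h4 : ∏ l, α l ^ ((cnt I l : ℤ) - cnt J l) = (∏ t, α (I t)) / ∏ t, α (J t) := by
    rw [prod_cnt I, prod_cnt J, ← Finset.prod_div_distrib]
    refine Finset.prod_congr rfl fun l _ => ?_
    rw [zpow_sub₀ (hα l), zpow_natCast, zpow_natCast]
  rw [h3, h4, sub_eq_zero] at h2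
  rw [← h2]
  have h5 : ∏ t, α (J t) ≠ 0 := Finset.prod_ne_zero_iff.2 fun t _ => hα _
  refine exists_congr fun s => and_congr_right fun hs => ?_
  rw [div_pow, div_eq_one_iff_eq (pow_ne_zero _ h5)]

end Pool.Agent.Run7.h946.GL
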