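import Pool.Agent.Run7.h946.GL.WordB
import Pool.Agent.Run7.h946.GL.Steps

/-!
# The eigenvalues with multiplicities, and the asymptotic formula for the orders of the poles
-/

set_option autoImplicit false
set_option linter.unusedVariables false
set_option linter.unusedSectionVars false

open CategoryTheory AlgebraicGeometry CategoryTheory.Limits

universe u v

namespace Pool.Agent.Run7.h946.GL

open Pool.Agent.H914 Pool.Agent.H447 Pool.Agent.W534 Pool.Agent.Y163 Pool.Agent.R940 VarClass Obj
  WeilCohomology Module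

variable {k : Type u} [Field k] {𝒱 : VarClass k} {ops : CycleOps 𝒱}
  {W : WeilCohomology.{u, v} ops} {X Y Z U S : 𝒱.Obj} {p : ℕ} (Φ : FrobSystem W p)

section Mult

variable {ι : Type v} [Fintype ι] [DecidableEq ι] {B : HBasis W X ι} {lam : ι → W.K}

lemma card_eig (hB : IsEig Φ B lam) (μ : W.K) :
    Nat.card {l // lam l = μ} = (frob Φ X 1).charpoly.rootMultiplicity μ := by
  classical
  rw [← LinearMap.finrank_maxGenEigenspace_eq]
  have hspan : (frob Φ X 1).maxGenEigenspace μ =
      Submodule.span W.K (Set.range fun l : {l // lam l = μ} => B.b l.1) := by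
    apply le_antisymm
    · intro x hx
      rw [← B.b.sum_repr x]
      refine Submodule.sum_mem _ fun l _ => ?_
      by_cases h0 : lam l = μ
      · exact Submodule.smul_mem _ _ (Submodule.subset_span ⟨⟨l, h0⟩, rfl⟩)
      · rw [repr_zero (Module.End.independent_maxGenEigenspace (frob Φ X 1)) B.b lam hB hx h0,
          zero_smul]
        exact Submodule.zero_mem _
    · rw [Submodule.span_le]
      rintro _ ⟨⟨l, rfl⟩, rfl⟩
      exact hB l
  have h1 := finrank_span_eq_card (R := W.K) (b := fun l : {l // lam l = μ} => B.b l.1)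
    (B.b.linearIndependent.comp _ Subtype.val_injective)
  rw [hspan, h1, Nat.card_eq_fintype_card]

open Polynomial in
lemma card_root {K κ : Type*} [Field K] [Fintype κ] (α : κ → K) (μ : K) :
    Nat.card {l // α l = μ} = (∏ l, (Polynomial.X - C (α l))).rootMultiplicity μ := by
  classical
  rw [← Polynomial.count_roots]
  have h1 : (∏ l, (Polynomial.X - C (α l))).roots = Finset.univ.val.map α := by
    have h2 : (∏ l, (Polynomial.X - C (α l))) =
        ((Finset.univ.val.map α).map fun a => Polynomial.X - C a).prod := by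
      rw [Multiset.map_map]; rfl
    rw [h2, Polynomial.roots_multiset_prod_X_sub_C]
  rw [h1, Multiset.count_map, Nat.card_eq_fintype_card, Fintype.card_subtype]
  rw [← Finset.filter_val, Finset.card_val]
  congr 1
  ext l
  simp only [Finset.mem_filter, Finset.mem_univ, true_and]
  exact eq_comm

open Polynomial in
/-- two enumerations of the eigenvalues differ by a bijection -/
theorem exists_enum {κ : Type*} [Fintype κ] (hB : IsEig Φ B lam) (α : κ → W.K)
    (hα : (frob Φ X 1).charpoly = ∏ l, (Polynomial.X - C (α l))) :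
    ∃ e : κ ≃ ι, ∀ l, lam (e l) = α l := by
  classical
  have h : ∀ μ, Nat.card {l // α l = μ} = Nat.card {l // lam l = μ} := fun μ => by
    rw [card_root, card_eig Φ hB, hα]
  exact ⟨Equiv.ofFiberEquiv fun μ => (Finite.card_eq.1 (h μ)).some,
    fun l => Equiv.ofFiberEquiv_map _ l⟩

end Mult

/-- The normalising factor `√(det (cov v)) (4 π (n + 1)) ^ (κ / 2) / b ^ (2 n + 2)`. -/
noncomputable def gauss {ι : Type*} [Fintype ι] {κ : ℕ} (v : ι → Fin κ → ℤ) (n : ℕ) : ℝ :=
  √(cov v).det * √(4 * Real.pi * (n + 1 : ℕ)) ^ κ / (Fintype.card ι : ℝ) ^ (2 * (n + 1))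

open Filter Topology in
theorem tendsto_gauss {ι : Type*} [Fintype ι] [Nonempty ι] {κ : ℕ} (v : ι → Fin κ → ℤ)
    (hv : AddSubgroup.closure {w | ∃ l m, w = v l - v m} = ⊤) :
    Tendsto (fun n : ℕ => (pairs v (n + 1) : ℝ) * gauss v n) atTop (𝓝 1) := by
  have h1 := (tendsto_pairs v hv).comp (tendsto_add_atTop_nat 1)
  refine h1.congr fun n => ?_
  simp only [Function.comp_apply, gauss]
  ring

theorem gauss_pos {ι : Type*} [Fintype ι] [Nonempty ι] {κ : ℕ} (v : ι → Fin κ → ℤ)
    (hv : AddSubgroup.closure {w | ∃ l m, w = v l - v m} = ⊤) (n : ℕ) : 0 < gauss v n := by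
  have h1 := det_cov_pos v hv
  have h2 : (0 : ℝ) < Fintype.card ι := by exact_mod_cast Fintype.card_pos
  have h3 := Real.pi_pos
  have h4 : (0 : ℝ) < (n + 1 : ℕ) := by exact_mod_cast Nat.succ_pos n
  unfold gauss
  positivity

open Polynomial in
/-- the orders of the poles are the numbers of pairs of words with equal sums -/
theorem pole_pairs [hp : Fact p.Prime] [IsAlgClosed W.K] {σ : W.K →+* ℂ}
    (hRH : RiemannHyp Φ σ X) {κ : Type*} [Fintype κ] (α : κ → W.K)
    (hα : (frob Φ X 1).charpoly = ∏ l, (Polynomial.X - C (α l))) :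
    (∀ l, α l ≠ 0) ∧ ∀ {r : ℕ} {v : κ → Fin r → ℤ}, Steps α v → ∀ n,
      finrank W.K (genU Φ (sq X n) ((n + 1) * X.dim)) = pairs v (n + 1) := by
  classical
  obtain ⟨ι, hι, B, lam, hB⟩ := exists_ebasis Φ X
  cases nonempty_fintype ι
  obtain ⟨e, he⟩ := exists_enum Φ hB α hα
  have hα0 : ∀ l, α l ≠ 0 := fun l => by rw [← he]; exact lam_ne Φ hB _
  refine ⟨hα0, fun {r v} hv n => ?_⟩
  rw [card_words Φ hB hRH, pairs]
  let E : (Fin (n + 1) → κ) × (Fin (n + 1) → κ) ≃ (Fin (n + 1) → ι) × (Fin (n + 1) → ι) :=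
    ((Equiv.refl _).arrowCongr e).prodCongr ((Equiv.refl _).arrowCongr e)
  refine (Nat.card_congr (E.subtypeEquiv fun x => ?_)).symm
  rw [← hv.words_iff hα0]
  have h1 : ∀ t, lam ((E x).1 t) = α (x.1 t) := fun t => he _
  have h2 : ∀ t, lam ((E x).2 t) = α (x.2 t) := fun t => he _
  simp only [h1, h2]

end Pool.Agent.Run7.h946.GL
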