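import Pool.Agent.Run7.h946.GL.Steps

/-!
# The rank of the group generated by the quotients
-/

set_option autoImplicit false

open Module

namespace Pool.Agent.Run7.h946.GL

/-- The rank of the multiplicative group generated by the quotients of the (nonzero) numbers `α l`. -/
noncomputable def quotRank {K ι : Type*} [Field K] (α : ι → K) : ℕ :=
  finrank ℤ (Submodule.span ℤ {x : Additive Kˣ | ∃ l m, α l = α m * (x.toMul : K)})

lemma finrank_range_add_ker {F N : Type*} [AddCommGroup F] [Module.Finite ℤ F] [AddCommGroup N]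
    (f : F →ₗ[ℤ] N) : finrank ℤ (LinearMap.range f) + finrank ℤ (LinearMap.ker f) = finrank ℤ F := by
  rw [← Submodule.finrank_quotient_add_finrank (LinearMap.ker f),
    f.quotKerEquivRange.finrank_eq]

/-- vectors of the length of the rank -/
theorem exists_steps_rank {K ι : Type*} [Field K] [Fintype ι] [Nonempty ι] (α : ι → K)
    (hα : ∀ l, α l ≠ 0) : ∃ v : ι → Fin (quotRank α) → ℤ, Steps α v := by
  classical
  obtain ⟨k, v, hv⟩ := exists_steps α hα
  suffices h : quotRank α = k by
    subst h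
    exact ⟨v, hv⟩
  -- the homomorphism from the group of the exponents with sum zero
  let F : Submodule ℤ (ι → ℤ) := LinearMap.ker (∑ l, LinearMap.proj (R := ℤ) (φ := fun _ : ι => ℤ) l)
  have hF : ∀ m : ι → ℤ, m ∈ F ↔ ∑ l, m l = 0 := by
    intro m
    rw [LinearMap.mem_ker, LinearMap.sum_apply]
    rfl
  let a : ι → Additive Kˣ := fun l => Additive.ofMul (Units.mk0 (α l) (hα l))
  let A : (ι → ℤ) →ₗ[ℤ] Additive Kˣ := Fintype.linearCombination ℤ a
  let V : (ι → ℤ) →ₗ[ℤ] (Fin k → ℤ) := Fintype.linearCombination ℤ v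
  have hA : ∀ m, A m = ∑ l, m l • a l := fun m => Fintype.linearCombination_apply ℤ a m
  have hV : ∀ m, V m = ∑ l, m l • v l := fun m => Fintype.linearCombination_apply ℤ v m
  let A' : F →ₗ[ℤ] Additive Kˣ := A.domRestrict F
  let V' : F →ₗ[ℤ] (Fin k → ℤ) := V.domRestrict F
  have hsub : ∀ l m, (Pi.single l 1 - Pi.single m 1 : ι → ℤ) ∈ F := by
    intro l m
    rw [hF]
    simp [Finset.sum_sub_distrib]
  have hAs : ∀ l m, A (Pi.single l 1 - Pi.single m 1) = a l - a m := by
    intro l m
    rw [map_sub]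
    simp [A]
  have hVs : ∀ l m, V (Pi.single l 1 - Pi.single m 1) = v l - v m := by
    intro l m
    rw [map_sub]
    simp [V]
  -- the range of the first map
  have h1 : LinearMap.range A' =
      Submodule.span ℤ {x : Additive Kˣ | ∃ l m, α l = α m * (x.toMul : K)} := by
    have h2 : {x : Additive Kˣ | ∃ l m, α l = α m * (x.toMul : K)} =
        Set.range fun y : ι × ι => a y.1 - a y.2 := by
      ext x
      constructor
      · rintro ⟨l, m, h⟩
        refine ⟨(l, m), ?_⟩
        have h3 : Units.mk0 (α l) (hα l) = Units.mk0 (α m) (hα m) * x.toMul := Units.ext h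
        change a l - a m = x
        rw [sub_eq_iff_eq_add]
        change Additive.ofMul (Units.mk0 (α l) (hα l)) = _
        rw [h3, ofMul_mul, add_comm]
        rfl
      · rintro ⟨⟨l, m⟩, rfl⟩
        refine ⟨l, m, ?_⟩
        change α l = α m * ((Units.mk0 (α l) (hα l) / Units.mk0 (α m) (hα m) : Kˣ) : K)
        rw [Units.val_div_eq_div_val, Units.val_mk0, Units.val_mk0, mul_div_cancel₀ _ (hα m)]
    rw [h2]
    apply le_antisymm
    · rintro _ ⟨⟨m, hm⟩, rfl⟩
      obtain ⟨l0⟩ := ‹Nonempty ι›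
      change A m ∈ _
      have h3 : A m = ∑ l, m l • (a l - a l0) := by
        have h5 : ∑ l, m l • a l0 = (∑ l, m l) • a l0 := by
          exact (Finset.sum_smul (f := m) (s := Finset.univ) (x := a l0)).symm
        rw [Finset.sum_congr rfl fun l _ => zsmul_sub (a l) (a l0) (m l), Finset.sum_sub_distrib,
          h5, (hF m).1 hm, zero_smul, sub_zero, hA]
      rw [h3]
      exact Submodule.sum_mem _ fun l _ => Submodule.smul_mem _ _ (Submodule.subset_span ⟨(l, l0), rfl⟩)
    · rw [Submodule.span_le]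
      rintro _ ⟨⟨l, m⟩, rfl⟩
      exact ⟨⟨_, hsub l m⟩, hAs l m⟩
  -- the range of the second map
  have h2 : LinearMap.range V' = ⊤ := by
    rw [eq_top_iff]
    intro z _
    have h3 : z ∈ AddSubgroup.closure {w | ∃ l m, w = v l - v m} := by rw [hv.gen]; trivial
    induction h3 using AddSubgroup.closure_induction with
    | mem w hw =>
      obtain ⟨l, m, rfl⟩ := hw
      exact ⟨⟨_, hsub l m⟩, hVs l m⟩
    | zero => exact Submodule.zero_mem _
    | add x y _ _ hx hy => exact Submodule.add_mem _ (hx trivial) (hy trivial)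
    | neg x _ hx => exact Submodule.neg_mem _ (hx trivial)
  -- the kernels
  have h6 : ∀ (m : ι → ℤ) (c : ℕ), c • A m = 0 ↔ (∏ l, α l ^ m l) ^ c = 1 := by
    intro m c
    have h7 : A m = Additive.ofMul (∏ l, (Units.mk0 (α l) (hα l)) ^ m l) := by rw [hA]; rfl
    rw [h7, ← ofMul_pow, ofMul_eq_zero, ← Units.val_eq_one, Units.val_pow_eq_pow_val]
    simp
  have h3 : ∀ m : F, V' m = 0 ↔ ∃ s : ℕ, 0 < s ∧ s • A' m = 0 := by
    rintro ⟨m, hm⟩
    change V m = 0 ↔ ∃ s : ℕ, 0 < s ∧ s • A m = 0
    simp only [h6]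
    rw [hv.rel m ((hF m).1 hm), hV]
  have h4 : finrank ℤ (LinearMap.ker V') = finrank ℤ (LinearMap.ker A') := by
    have hle : LinearMap.ker A' ≤ LinearMap.ker V' := fun m hm =>
      (h3 m).2 ⟨1, one_pos, by rw [one_smul]; exact hm⟩
    have h5 := Submodule.finrank_quotient_add_finrank
      ((LinearMap.ker A').comap (LinearMap.ker V').subtype)
    have h7 : finrank ℤ ((LinearMap.ker V') ⧸
        ((LinearMap.ker A').comap (LinearMap.ker V').subtype)) = 0 := by
      rw [Module.finrank_eq_zero_iff_isTorsion]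
      intro x
      obtain ⟨⟨m, hm⟩, rfl⟩ := Submodule.Quotient.mk_surjective _ x
      obtain ⟨s, hs, h8⟩ := (h3 m).1 hm
      refine ⟨⟨(s : ℤ), mem_nonZeroDivisors_of_ne_zero (by exact_mod_cast hs.ne')⟩, ?_⟩
      rw [Submonoid.smul_def, ← Submodule.Quotient.mk_smul, Submodule.Quotient.mk_eq_zero]
      change A' ((s : ℤ) • m) = 0
      rw [map_smul, natCast_zsmul]
      exact h8
    rw [h7, zero_add] at h5
    rw [← h5]
    exact (Submodule.comapSubtypeEquivOfLe hle).finrank_eq
  have h7 := finrank_range_add_ker A'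
  have h8 := finrank_range_add_ker V'
  rw [h1] at h7
  rw [h2, finrank_top, Module.finrank_fin_fun, h4] at h8
  change finrank ℤ (Submodule.span ℤ {x : Additive Kˣ | ∃ l m, α l = α m * (x.toMul : K)}) = k
  omega

end Pool.Agent.Run7.h946.GL
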