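import Mathlib

/-!
# An invertible operator is semisimple if a power is
-/

set_option autoImplicit false

open Module Algebra

namespace Pool.Agent.Run7.h946.GL

theorem isSemisimple_of_pow {K V : Type*} [Field K] [CharZero K] [AddCommGroup V] [Module K V]
    [FiniteDimensional K V] {F : Module.End K V} (hF : IsUnit F) {M : ℕ} (hM : 0 < M)
    (h : (F ^ M).IsSemisimple) : F.IsSemisimple := by
  obtain ⟨n, hn, s, hs, hnil, hss, hF'⟩ := F.exists_isNilpotent_isSemisimple
  have hcomm : ∀ a ∈ adjoin K {F}, ∀ b ∈ adjoin K {F}, Commute a b := fun a ha b hb =>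
    commute_of_mem_adjoin_singleton_of_commute hb (commute_of_mem_adjoin_self ha).symm
  have hFm : F ∈ adjoin K {F} := self_mem_adjoin_singleton K F
  have hFs : Commute F s := hcomm _ hFm _ hs
  have hns : F - s = n := by
    have : F = n + s := hF'
    rw [sub_eq_iff_eq_add, ← this]
  have hgm : ∀ j, (∑ i ∈ Finset.range j, F ^ i * s ^ (j - 1 - i)) ∈ adjoin K {F} := fun j =>
    sum_mem fun i _ => mul_mem (pow_mem hFm i) (pow_mem hs _)
  have hg : ∀ j, n * ∑ i ∈ Finset.range j, F ^ i * s ^ (j - 1 - i) = F ^ j - s ^ j := fun j => by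
    rw [← hns]; exact hFs.mul_geom_sum₂ j
  -- the difference of the powers vanishes
  have hD : F ^ M - s ^ M = 0 := by
    apply Module.End.eq_zero_of_isNilpotent_isSemisimple
    · rw [← hg]
      exact (hcomm _ hn _ (hgm M)).isNilpotent_mul_right hnil
    · exact Module.End.IsSemisimple.sub_of_commute (hFs.pow_pow M M) h (hss.pow M)
  set v := ∑ i ∈ Finset.range M, F ^ i * s ^ (M - 1 - i) with hv
  have hnv : n * v = 0 := by rw [hg, hD]
  -- `M F ^ (M - 1) = v + n u`
  obtain ⟨u, hu, huv⟩ : ∃ u ∈ adjoin K {F}, (M : K) • F ^ (M - 1) = v + n * u := by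
    refine ⟨∑ i ∈ Finset.range M, F ^ i *
      ∑ l ∈ Finset.range (M - 1 - i), F ^ l * s ^ (M - 1 - i - 1 - l),
      sum_mem fun i _ => mul_mem (pow_mem hFm i) (hgm _), ?_⟩
    rw [Finset.mul_sum, hv, ← Finset.sum_add_distrib]
    have h1 : ∀ i ∈ Finset.range M, F ^ i * s ^ (M - 1 - i) + n * (F ^ i *
        ∑ l ∈ Finset.range (M - 1 - i), F ^ l * s ^ (M - 1 - i - 1 - l)) = F ^ (M - 1) := by
      intro i hi
      have hi' := Finset.mem_range.1 hi
      rw [← mul_assoc, (hcomm _ hn _ (pow_mem hFm i)).eq, mul_assoc, hg, ← mul_add,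
        add_sub_cancel, ← pow_add]
      congr 1; omega
    rw [Finset.sum_congr rfl h1, Finset.sum_const, Finset.card_range, Nat.cast_smul_eq_nsmul]
  have hM' : (M : K) ≠ 0 := Nat.cast_ne_zero.2 hM.ne'
  let G : Module.End K V := ↑(hF.unit⁻¹)
  have hFG : F * G = 1 := hF.mul_val_inv
  have hGF : G * F = 1 := hF.val_inv_mul
  have hG : ∀ a ∈ adjoin K {F}, Commute a G := fun a ha => by
    have h1 : Commute a (hF.unit : Module.End K V) := hcomm a ha F hFm
    exact h1.units_inv_right
  let Q : Module.End K V := (M : K)⁻¹ • G ^ (M - 1)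
  have hPQ : ((M : K) • F ^ (M - 1)) * Q = 1 := by
    have h1 : F ^ (M - 1) * G ^ (M - 1) = 1 := by
      rw [← Commute.mul_pow (hG F hFm), hFG, one_pow]
    simp only [Q]
    rw [smul_mul_smul_comm, h1, mul_inv_cancel₀ hM', one_smul]
  have hQ : ∀ a ∈ adjoin K {F}, Commute a Q := fun a ha =>
    ((hG a ha).pow_right (M - 1)).smul_right _
  have h2 : n = n * (n * (u * Q)) := by
    calc n = n * (((M : K) • F ^ (M - 1)) * Q) := by rw [hPQ, mul_one]
      _ = (n * v + n * (n * u)) * Q := by rw [huv, ← mul_assoc, mul_add]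
      _ = n * (n * (u * Q)) := by rw [hnv, zero_add]; noncomm_ring
  have h3 : IsNilpotent (n * (u * Q)) :=
    (((hcomm n hn u hu).mul_right (hQ n hn))).isNilpotent_mul_right hnil
  obtain ⟨r, hr⟩ := h3
  have h4 : ∀ r : ℕ, n = n * (n * (u * Q)) ^ r := by
    intro r
    induction r with
    | zero => rw [pow_zero, mul_one]
    | succ r ih => rw [pow_succ', ← mul_assoc, ← h2]; exact ih
  have h5 : n = 0 := by rw [h4 r, hr, mul_zero]
  have h6 : F = s := by
    have : F = n + s := hF'
    rw [this, h5, zero_add]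
  rw [h6]
  exact hss

end Pool.Agent.Run7.h946.GL
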