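import Pool.Agent.Run7.h946.GL.DThm
import Pool.Agent.Run7.h946.GL.SemiLin

/-!
# Nondegeneracy in all codimensions, and the semisimplicity of the Frobenius endomorphisms
-/

set_option autoImplicit false
set_option linter.unusedVariables false
set_option linter.unusedSectionVars false

open CategoryTheory AlgebraicGeometry CategoryTheory.Limits Filter Topology

universe u v

namespace Pool.Agent.Run7.h946.GL

open Pool.Agent.H914 Pool.Agent.H447 Pool.Agent.W534 Pool.Agent.Y163 VarClass Obj
  WeilCohomology Module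

variable {k : Type u} [Field k] {𝒱 : VarClass k} {ops : CycleOps 𝒱}
  {W : WeilCohomology.{u, v} ops} {X Y Z U S P : 𝒱.Obj} {p : ℕ} {Φ : FrobSystem W p}

/-- there are no numerically trivial algebraic classes in the middle degree of `U × U` -/
def NonDeg (W : WeilCohomology.{u, v} ops) (U : 𝒱.Obj) : Prop :=
  ∀ y ∈ spanCycles W (U.prod U) (U.dim : ℤ), NumTriv y U.dim → y = 0

/-- From the middle degree of the square to all degrees. -/
theorem nondeg_all (h : NonDeg W U) {E : U.Cycles} (hE : U.IsCyc 1 E)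
    (hE2 : W.tr U (W.cl U E ^ U.dim) ≠ 0) {j l : ℕ} (hjl : j + l = U.dim) {c : W.H U}
    (hc : c ∈ spanCycles W U j) (hnum : ∀ g ∈ spanCycles W U l, W.tr U (c * g) = 0) : c = 0 := by
  by_contra hc0
  have hEl : W.cl U E ^ l ∈ spanCycles W U l := by
    rw [← cl_divPow_fund]; exact mem_span_cl (divPow_fund_mem hE l)
  have hEl0 : W.cl U E ^ l ≠ 0 := by
    intro h0
    apply hE2
    rw [← hjl, pow_add, h0, mul_zero, map_zero]
  refine ext_ne (P := U) hc0 hEl0 (h _ ?_ ?_)
  · have := (spanS W).stable (ext_mem (P := U) hc) (j := l) (j' := U.dim) (by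
      rw [← hjl]; push_cast; ring) hEl
    exact this
  · intro w hw
    rw [ext_apply, mul_assoc, W.even_comm (W.map_mem _ (span_gr hc)), ← W.tr_push,
      ← W.even_comm (span_gr hc)]
    apply hnum
    have h1 : W.map (snd U U) (W.cl U E ^ l) * w ∈
        spanCycles W (U.prod U) ((l + U.dim : ℕ) : ℤ) := by
      have := Pool.Agent.R940.span_mul (map_span (snd U U) hEl) hw
      rwa [← Nat.cast_add] at this
    exact (spanS W).push (fst U U) h1 (by rw [dim_prod]; ring)

theorem homEqNum_all (h : NonDeg W U) {E : U.Cycles} (hE : U.IsCyc 1 E)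
    (hE2 : W.tr U (W.cl U E ^ U.dim) ≠ 0) (j : ℕ) : HomEqNumIn W U j := by
  rcases Nat.lt_or_ge U.dim j with hlt | hge
  · intro z hz _
    have h1 := W.cl_mem hz
    rw [W.gr_eq_bot U _ (by omega)] at h1
    exact (Submodule.mem_bot _).1 h1
  · obtain ⟨l, hl⟩ := Nat.exists_eq_add_of_le hge
    apply homEqNumIn_of_pair hl.symm
    rw [← LinearMap.ker_eq_bot, LinearMap.ker_eq_bot']
    rintro ⟨c, hc⟩ h0
    apply Subtype.ext
    refine nondeg_all h hE hE2 hl.symm hc fun g hg => ?_
    exact congrArg (fun F => F ⟨g, hg⟩) h0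

/-- The radical of the algebra of correspondences vanishes. -/
theorem rad_eq_zero (h : NonDeg W U) (hpar : par (W.isInternal U) ∈ KOp W U U 0)
    {x : Module.End W.K (W.H U)} (hx : x ∈ rad (KAlg W U)) : x = 0 := by
  obtain ⟨γ, hγ, rfl⟩ := mem_KOp_iff.1 (mem_KAlg.1 hx.1)
  rw [add_zero] at hγ
  have h1 : γ = 0 := by
    apply h _ hγ
    intro w hw
    rw [tr_mul_eq_trace' (span_gr hγ) w]
    have h2 : par (W.isInternal U) ∘ₗ W.corr γ ∘ₗ W.corr (W.map (swap U U) w) =
        par (W.isInternal U) * (W.corr γ * W.corr (W.map (swap U U) w)) := rfl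
    rw [h2, LinearMap.trace_mul_comm, mul_assoc]
    apply hx.2
    refine (KAlg W U).mul_mem (mem_KAlg.2 ?_) (mem_KAlg.2 hpar)
    rw [mem_KOp_iff]
    exact ⟨_, by rw [add_zero]; exact map_span (swap U U) hw, rfl⟩
  rw [h1, corr_zero]

/-- A power of the Frobenius endomorphism commutes with all algebraic correspondences. -/
theorem exists_central (Φ : FrobSystem W p) (U : 𝒱.Obj) :
    ∃ M : ℕ, 0 < M ∧ ∀ f ∈ KAlg W U, Commute (frob Φ U M) f := by
  obtain ⟨a, b, ha, hb, hab, h⟩ := frob_comm (W := W) Φ (fst U U)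
  obtain ⟨a', b', ha', hb', hab', h'⟩ := frob_comm (W := W) Φ (snd U U)
  obtain ⟨t, ht, h1⟩ := exists_span_eig Φ (U.prod U) U.dim
  have hbb : b * a' = b' * a := by
    apply Nat.eq_of_mul_eq_mul_right (Φ.e_pos U)
    calc b * a' * Φ.e U = (b * Φ.e U) * a' := by ring
      _ = a * Φ.e (U.prod U) * a' := by rw [hab]
      _ = (a' * Φ.e (U.prod U)) * a := by ring
      _ = b' * Φ.e U * a := by rw [hab']
      _ = _ := by ring
  refine ⟨b * (a' * t), by positivity, fun f hf => ?_⟩
  obtain ⟨γ, hγ, rfl⟩ := mem_KOp_iff.1 (mem_KAlg.1 hf)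
  rw [add_zero] at hγ
  have hγ1 : frob Φ (U.prod U) (a * (a' * t)) γ =
      ((card Φ (U.prod U) (a * (a' * t)) : W.K) ^ U.dim) • γ := by
    have := span_eig_mul' Φ (h1 γ hγ) (a * a')
    rwa [mul_assoc] at this
  set q : W.K := (card Φ (U.prod U) (a * (a' * t)) : W.K) with hq
  have hq0 : q ≠ 0 := card_ne Φ _
  have haa : a' * (a * t) = a * (a' * t) := by ring
  have hbt : b' * (a * t) = b * (a' * t) := by rw [← mul_assoc, ← hbb]; ring
  apply LinearMap.ext
  intro x
  rw [Module.End.mul_apply, Module.End.mul_apply]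
  have h2 := frob_push Φ (snd U U) (s := a * t) hab' h' (γ * W.map (fst U U) x)
  rw [haa, hbt, dim_prod, ← hq] at h2
  have h3 : frob Φ (U.prod U) (a * (a' * t)) (γ * W.map (fst U U) x) =
      (q ^ U.dim) • (γ * W.map (fst U U) (frob Φ U (b * (a' * t)) x)) := by
    rw [Pool.Agent.R940.frob_mul', hγ1, smul_mul_assoc]
    congr 2
    exact h (a' * t) x
  rw [h3, map_smul, smul_smul, ← pow_add] at h2
  have h4 := smul_right_injective _ (pow_ne_zero (U.dim + U.dim) hq0) h2
  exact h4

/-- The Frobenius endomorphism is invertible. -/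
theorem isUnit_frob (Φ : FrobSystem W p) (U : 𝒱.Obj) (s : ℕ) : IsUnit (frob Φ U s) := by
  rw [Module.End.isUnit_iff]
  have hs : Function.Surjective (frob Φ U s) := map_iter_surjective Φ s
  exact ⟨LinearMap.injective_iff_surjective.2 hs, hs⟩

/-- **Semisimplicity.** -/
theorem semisimple_frob (h : NonDeg W U) (hpar : par (W.isInternal U) ∈ KOp W U U 0) {s : ℕ}
    (hs : 0 < s) : (frob Φ U s).IsSemisimple := by
  obtain ⟨M, hM, hcen⟩ := exists_central Φ U
  have hfrob : ∀ M, frob Φ U M ∈ KAlg W U := fun M => map_mem_KOp _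
  have key : ∀ M, 0 < M → (∀ f ∈ KAlg W U, Commute (frob Φ U M) f) →
      (frob Φ U M).IsSemisimple := by
    intro M hM hcen
    obtain ⟨n, hn, s, -, hnil, hss, hF⟩ := (frob Φ U M).exists_isNilpotent_isSemisimple
    have hnK : n ∈ KAlg W U := by
      have h1 : Algebra.adjoin W.K {frob Φ U M} ≤ KAlg W U :=
        Algebra.adjoin_le (by rintro x rfl; exact hfrob M)
      exact h1 hn
    have hn0 : n = 0 := by
      apply rad_eq_zero h hpar
      refine ⟨hnK, fun y hy => ?_⟩
      have h2 : Commute n y :=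
        (Algebra.commute_of_mem_adjoin_singleton_of_commute hn (hcen y hy).symm).symm
      have h3 : IsNilpotent (n * y) := h2.isNilpotent_mul_right hnil
      exact (LinearMap.isNilpotent_trace_of_isNilpotent h3).eq_zero
    have h4 : frob Φ U M = s := by
      have : frob Φ U M = n + s := hF
      rw [this, hn0, zero_add]
    rw [h4]
    exact hss
  apply isSemisimple_of_pow (isUnit_frob Φ U s) hM
  rw [← frob_mul_eq]
  apply key (s * M) (Nat.mul_pos hs hM)
  intro f hf
  rw [mul_comm, frob_mul_eq]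
  exact (hcen f hf).pow_left s

end Pool.Agent.Run7.h946.GL
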