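import Pool.Agent.Run7.h946.GL.Asym
import Pool.Agent.Run7.h946.GL.Semi
import Pool.Agent.Run7.h946.GL.QRank

/-!
# The growth of the ranks of the groups of cycles on powers
-/

set_option autoImplicit false
set_option linter.unusedVariables false
set_option linter.unusedSectionVars false

open CategoryTheory AlgebraicGeometry CategoryTheory.Limits Filter Topology

universe u v

namespace Pool.Agent.Run7.h946.GL

open Pool.Agent.H914 Pool.Agent.H447 Pool.Agent.W534 Pool.Agent.Y163 VarClass Obj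
  WeilCohomology Module

variable {k : Type u} [Field k] {𝒱 : VarClass k} {ops : CycleOps 𝒱}
  {W : WeilCohomology.{u, v} ops} {X Y Z U S P : 𝒱.Obj} {p : ℕ} {Φ : FrobSystem W p}

/-- The function `b ^ (2 n + 2) / (n + 1) ^ (κ / 2)`. -/
noncomputable def growth (b κ n : ℕ) : ℝ := (b : ℝ) ^ (2 * (n + 1)) / √((n + 1 : ℕ) : ℝ) ^ κ

theorem growth_pos {b : ℕ} (hb : 0 < b) (κ n : ℕ) : 0 < growth b κ n := by
  have h1 : (0 : ℝ) < b := by exact_mod_cast hb
  have h2 : (0 : ℝ) < ((n + 1 : ℕ) : ℝ) := by exact_mod_cast Nat.succ_pos n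
  unfold growth
  positivity

/-- the constant -/
noncomputable def cst {ι : Type*} [Fintype ι] {κ : ℕ} (v : ι → Fin κ → ℤ) : ℝ :=
  √(cov v).det * √(4 * Real.pi) ^ κ

theorem gauss_eq {ι : Type*} [Fintype ι] {κ : ℕ} (v : ι → Fin κ → ℤ) (n : ℕ) :
    gauss v n = cst v * (growth (Fintype.card ι) κ n)⁻¹ := by
  have h1 : √(4 * Real.pi * ((n + 1 : ℕ) : ℝ)) = √(4 * Real.pi) * √((n + 1 : ℕ) : ℝ) :=
    Real.sqrt_mul (by have := Real.pi_pos; positivity) _
  rw [gauss, h1, mul_pow, cst, growth, inv_div]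
  ring

theorem cst_pos {ι : Type*} [Fintype ι] [Nonempty ι] {κ : ℕ} (v : ι → Fin κ → ℤ)
    (hv : AddSubgroup.closure {w | ∃ l m, w = v l - v m} = ⊤) : 0 < cst v := by
  have h1 := det_cov_pos v hv
  have h2 := Real.pi_pos
  unfold cst
  positivity

theorem growth_law [hp : Fact p.Prime] [IsAlgClosed W.K] {σ : W.K →+* ℂ}
    (hRH : ∀ Z : 𝒱.Obj, RiemannHyp Φ σ Z) {D : X.Cycles} (hD : X.IsCyc 1 D) (hbig : Big ops X D)
    {ι : Type} [Fintype ι] (α : ι → W.K)
    (hα : (frob Φ X 1).charpoly = ∏ l, (Polynomial.X - Polynomial.C (α l))) :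
    0 < Fintype.card ι ∧ ∃ L : ℝ,
      Tendsto (fun n => (numRank ops (sq X n) ((n + 1) * X.dim) : ℝ) /
        growth (Fintype.card ι) (quotRank α) n) atTop (𝓝 L) ∧
      (L ≠ 0 → (∀ n j, HomEqNumIn W (pw X n) j) ∧
        (∀ n s, 0 < s → (frob Φ (pw X n) s).IsSemisimple) ∧
        ∃ δ : ℕ, ∀ n z, PoleOrderIs Φ σ (sq X n) ((n + 1) * X.dim) z →
          z ≤ δ * numRank ops (sq X n) ((n + 1) * X.dim)) ∧
      ∀ δ : ℕ, (∀ n z, PoleOrderIs Φ σ (sq X n) ((n + 1) * X.dim) z →
          z ≤ δ * numRank ops (sq X n) ((n + 1) * X.dim)) → L ≠ 0 := by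
  classical
  obtain ⟨hα0, -⟩ := pole_pairs Φ (hRH X) α hα
  obtain ⟨hne, -, hmain⟩ := asymptotic (W := W) hRH hD hbig α hα
  obtain ⟨v, hv⟩ := exists_steps_rank α hα0
  obtain ⟨-, z, L, h1, h2, h3, h4, h5, h6⟩ := hmain _ v hv
  have hc := cst_pos v hv.gen
  refine ⟨Fintype.card_pos, L / cst v, ?_, fun hL => ?_, fun δ hδ => ?_⟩
  · refine (h4.div_const (cst v)).congr fun n => ?_
    rw [gauss_eq]
    have := (growth_pos (Fintype.card_pos (α := ι)) (quotRank α) n).ne'
    field_simp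
  · have hL' : L ≠ 0 := by
      rintro rfl
      exact hL (zero_div _)
    obtain ⟨δ, hδ, -, hδ2⟩ := h5.resolve_left hL'
    have hX : par (W.isInternal X) ∈ KOp W X X 0 := par_mem_of_RH Φ hp.out.one_lt σ (hRH X)
    have htr : W.tr X (W.cl X D ^ X.dim) ≠ 0 := hbig.tr hD
    have hH : 0 < finrank W.K (W.H X) := by
      have : Nontrivial (W.H X) := by
        by_contra hcon
        rw [not_nontrivial_iff_subsingleton] at hcon
        apply htr
        rw [Subsingleton.elim (W.cl X D ^ X.dim) 0, map_zero]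
      exact finrank_pos
    have hbd : ∀ n, finrank W.K (spanCycles W (sq X n) (((n + 1) * X.dim : ℕ) : ℤ)) ≤
        δ * mrank W X n := by
      intro n
      have h7 := poleOrder_unique (h1 n)
        (poleOrderIs hp.out.one_lt (hRH _) (by rw [dim_sq]; omega))
      calc finrank W.K (spanCycles W (sq X n) (((n + 1) * X.dim : ℕ) : ℤ))
          ≤ finrank W.K (genU Φ (sq X n) ((n + 1) * X.dim)) :=
            Submodule.finrank_mono (span_le_genU Φ _ _)
        _ = z n := h7.symm
        _ ≤ δ * mrank W X n := by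
            have := hδ2 n
            rwa [numRank_sq (W := W)] at this
    have hnd : ∀ n, NonDeg W (pw X n) := by
      intro n y hy hnum
      have hdim : (pw X n).dim = (n + 1) * X.dim := dim_pw X n
      rw [hdim] at hy hnum
      exact nondeg_mid hX hH hD htr hbd hy hnum
    refine ⟨fun n j => ?_, fun n s hs => semisimple_frob (hnd n) (par_pw_mem hX n) hs, δ,
      fun n z' hz' => ?_⟩
    · obtain ⟨E, hE, hE2⟩ := exists_big hD htr n
      exact homEqNum_all (hnd n) hE hE2 j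
    · rw [poleOrder_unique hz' (h1 n)]
      exact hδ2 n
  · have h7 : (1 : ℝ) ≤ δ * L := by
      refine le_of_tendsto_of_tendsto' h3 (h4.const_mul (δ : ℝ)) fun n => ?_
      have h8 : (z n : ℝ) ≤ δ * (numRank ops (sq X n) ((n + 1) * X.dim) : ℝ) := by
        exact_mod_cast hδ n (z n) (h1 n)
      have h9 : 0 ≤ gauss v n := by
        rw [gauss_eq]
        exact mul_nonneg hc.le (inv_nonneg.2 (growth_pos (Fintype.card_pos (α := ι)) _ n).le)
      calc (z n : ℝ) * gauss v n ≤ (δ * (numRank ops (sq X n) ((n + 1) * X.dim) : ℝ)) * gauss v n :=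
            mul_le_mul_of_nonneg_right h8 h9
        _ = _ := by ring
    intro h0
    rw [div_eq_zero_iff] at h0
    rcases h0 with h0 | h0
    · rw [h0, mul_zero] at h7
      linarith
    · exact hc.ne' h0

end Pool.Agent.Run7.h946.GL
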