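import Mathlib

/-!
# A local limit theorem for pairs of words, part A: Fourier analysis

Let `v l`, for `l` in a finite set `ι`, be vectors in `ℤ ^ k` whose differences generate `ℤ ^ k`. We count the
pairs of words of length `N` in the letters `ι` with equal sums.
-/

set_option autoImplicit false

open MeasureTheory Filter Topology Real

namespace Pool.Agent.Run7.h946.GL

variable {ι : Type*} [Fintype ι] {k : ℕ}

/-- the scalar product of an integral and a real vector -/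
noncomputable def ip (z : Fin k → ℤ) (θ : Fin k → ℝ) : ℝ := ∑ r, (z r : ℝ) * θ r

theorem ip_zero (θ : Fin k → ℝ) : ip 0 θ = 0 := by simp [ip]

theorem ip_add (z w : Fin k → ℤ) (θ : Fin k → ℝ) : ip (z + w) θ = ip z θ + ip w θ := by
  simp [ip, add_mul, Finset.sum_add_distrib]

theorem ip_neg (z : Fin k → ℤ) (θ : Fin k → ℝ) : ip (-z) θ = -ip z θ := by
  simp [ip]

theorem ip_sub (z w : Fin k → ℤ) (θ : Fin k → ℝ) : ip (z - w) θ = ip z θ - ip w θ := by
  simp [ip, sub_mul, Finset.sum_sub_distrib]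

theorem ip_sum {α : Type*} (s : Finset α) (f : α → Fin k → ℤ) (θ : Fin k → ℝ) :
    ip (∑ a ∈ s, f a) θ = ∑ a ∈ s, ip (f a) θ := by
  classical
  induction s using Finset.induction_on with
  | empty => simp [ip_zero]
  | insert a s ha ih => rw [Finset.sum_insert ha, Finset.sum_insert ha, ip_add, ih]

theorem ip_smul (z : Fin k → ℤ) (c : ℝ) (θ : Fin k → ℝ) : ip z (c • θ) = c * ip z θ := by
  simp only [ip, Pi.smul_apply, smul_eq_mul, Finset.mul_sum]
  exact Finset.sum_congr rfl fun r _ => by ring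

theorem continuous_ip (z : Fin k → ℤ) : Continuous (ip z) := by
  unfold ip; fun_prop

/-- the sum of the squares of the sines -/
noncomputable def sq2 (v : ι → Fin k → ℤ) (θ : Fin k → ℝ) : ℝ :=
  ∑ l, ∑ m, sin (ip (v l - v m) θ / 2) ^ 2

/-- the deficit `1 - |P / b|²` -/
noncomputable def gap (v : ι → Fin k → ℤ) (θ : Fin k → ℝ) : ℝ :=
  2 / (Fintype.card ι : ℝ) ^ 2 * sq2 v θ

/-- the quadratic form of the covariance -/
noncomputable def qf (v : ι → Fin k → ℤ) (x : Fin k → ℝ) : ℝ :=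
  1 / (2 * (Fintype.card ι : ℝ) ^ 2) * ∑ l, ∑ m, ip (v l - v m) x ^ 2

theorem sq2_nonneg (v : ι → Fin k → ℤ) (θ : Fin k → ℝ) : 0 ≤ sq2 v θ :=
  Finset.sum_nonneg fun _ _ => Finset.sum_nonneg fun _ _ => sq_nonneg _

theorem gap_nonneg (v : ι → Fin k → ℤ) (θ : Fin k → ℝ) : 0 ≤ gap v θ :=
  mul_nonneg (by positivity) (sq2_nonneg v θ)

theorem continuous_gap (v : ι → Fin k → ℤ) : Continuous (gap v) := by
  unfold gap sq2 ip; fun_prop

theorem sin_add_sq_le (a b : ℝ) : sin (a + b) ^ 2 ≤ 2 * sin a ^ 2 + 2 * sin b ^ 2 := by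
  rw [sin_add]
  have h1 : (sin a * cos b + cos a * sin b) ^ 2 ≤
      2 * (sin a * cos b) ^ 2 + 2 * (cos a * sin b) ^ 2 := by
    nlinarith [sq_nonneg (sin a * cos b - cos a * sin b)]
  have h2 : (sin a * cos b) ^ 2 ≤ sin a ^ 2 := by
    rw [mul_pow]
    exact mul_le_of_le_one_right (sq_nonneg _) (by nlinarith [sin_sq_add_cos_sq b, sq_nonneg (sin b)])
  have h3 : (cos a * sin b) ^ 2 ≤ sin b ^ 2 := by
    rw [mul_pow]
    exact mul_le_of_le_one_left (sq_nonneg _) (by nlinarith [sin_sq_add_cos_sq a, sq_nonneg (sin a)])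
  linarith

theorem sin_le_sq2 (v : ι → Fin k → ℤ) (z : Fin k → ℤ)
    (hz : z ∈ AddSubgroup.closure {w | ∃ l m, w = v l - v m}) :
    ∃ C : ℝ, 0 ≤ C ∧ ∀ θ, sin (ip z θ / 2) ^ 2 ≤ C * sq2 v θ := by
  classical
  induction hz using AddSubgroup.closure_induction with
  | mem w hw =>
    obtain ⟨l, m, rfl⟩ := hw
    refine ⟨1, by norm_num, fun θ => ?_⟩
    rw [one_mul, sq2]
    refine le_trans ?_ (Finset.single_le_sum (f := fun l => ∑ m, sin (ip (v l - v m) θ / 2) ^ 2)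
      (fun _ _ => Finset.sum_nonneg fun _ _ => sq_nonneg _) (Finset.mem_univ l))
    exact Finset.single_le_sum (f := fun m => sin (ip (v l - v m) θ / 2) ^ 2)
      (fun _ _ => sq_nonneg _) (Finset.mem_univ m)
  | zero => exact ⟨0, le_refl _, fun θ => by simp [ip_zero]⟩
  | add x y _ _ hx hy =>
    obtain ⟨C, hC, h1⟩ := hx
    obtain ⟨D, hD, h2⟩ := hy
    refine ⟨2 * C + 2 * D, by positivity, fun θ => ?_⟩
    have := sin_add_sq_le (ip x θ / 2) (ip y θ / 2)
    rw [ip_add, add_div]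
    nlinarith [h1 θ, h2 θ]
  | neg x _ hx =>
    obtain ⟨C, hC, h1⟩ := hx
    refine ⟨C, hC, fun θ => ?_⟩
    rw [ip_neg, neg_div, sin_neg, neg_sq]
    exact h1 θ

theorem ip_single (r : Fin k) (θ : Fin k → ℝ) : ip (Pi.single r 1) θ = θ r := by
  classical
  rw [ip, Finset.sum_eq_single r]
  · simp
  · intro s _ hs; simp [Pi.single_apply, hs]
  · simp

/-- the cube -/
def cube (k : ℕ) : Set (Fin k → ℝ) := Set.univ.pi fun _ => Set.Ioc (-π) π

theorem abs_le_of_mem_cube {θ : Fin k → ℝ} (h : θ ∈ cube k) (r : Fin k) : |θ r| ≤ π := by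
  have := h r (Set.mem_univ _)
  exact abs_le.2 ⟨this.1.le, this.2⟩

theorem sq_div_le {t : ℝ} (ht : |t| ≤ π) : t ^ 2 / π ^ 2 ≤ sin (t / 2) ^ 2 := by
  have hpi := pi_pos
  have h1 : |t| / π ≤ |sin (t / 2)| := by
    have h2 := mul_abs_le_abs_sin (x := t / 2) (by
      rw [abs_div, abs_two]; linarith)
    rw [abs_div, abs_two] at h2
    calc |t| / π = 2 / π * (|t| / 2) := by field_simp
      _ ≤ _ := h2
  have h3 := pow_le_pow_left₀ (by positivity) h1 2
  rwa [div_pow, sq_abs, sq_abs] at h3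

/-- the deficit is bounded below by a positive definite form on the cube -/
theorem gap_ge [Nonempty ι] (v : ι → Fin k → ℤ)
    (hv : AddSubgroup.closure {w | ∃ l m, w = v l - v m} = ⊤) :
    ∃ c : ℝ, 0 < c ∧ ∀ θ ∈ cube k, c * ∑ r, θ r ^ 2 ≤ gap v θ := by
  classical
  have h : ∀ r : Fin k, ∃ C : ℝ, 0 ≤ C ∧ ∀ θ : Fin k → ℝ, sin (θ r / 2) ^ 2 ≤ C * sq2 v θ := by
    intro r
    obtain ⟨C, hC, h1⟩ := sin_le_sq2 v (Pi.single r 1) (by rw [hv]; trivial)
    exact ⟨C, hC, fun θ => by simpa [ip_single] using h1 θ⟩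
  choose C hC h using h
  have hb : (0 : ℝ) < Fintype.card ι := by exact_mod_cast Fintype.card_pos
  have hpi := pi_pos
  set S : ℝ := 1 + ∑ r, C r with hS
  have hS0 : 0 < S := by
    have := Finset.sum_nonneg (fun r (_ : r ∈ Finset.univ) => hC r)
    linarith
  refine ⟨2 / ((Fintype.card ι : ℝ) ^ 2 * (π ^ 2 * S)), by positivity, fun θ hθ => ?_⟩
  have h1 : ∑ r, θ r ^ 2 ≤ π ^ 2 * S * sq2 v θ := by
    calc ∑ r, θ r ^ 2 ≤ ∑ r, π ^ 2 * (C r * sq2 v θ) := by
          refine Finset.sum_le_sum fun r _ => ?_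
          have h2 := (sq_div_le (abs_le_of_mem_cube hθ r)).trans (h r θ)
          rw [div_le_iff₀ (by positivity)] at h2
          linarith
      _ = π ^ 2 * (∑ r, C r) * sq2 v θ := by
          rw [← Finset.mul_sum, ← Finset.sum_mul]; ring
      _ ≤ π ^ 2 * S * sq2 v θ := by
          have := sq2_nonneg v θ
          have h3 : ∑ r, C r ≤ S := by linarith
          gcongr
  calc 2 / ((Fintype.card ι : ℝ) ^ 2 * (π ^ 2 * S)) * ∑ r, θ r ^ 2
      ≤ 2 / ((Fintype.card ι : ℝ) ^ 2 * (π ^ 2 * S)) * (π ^ 2 * S * sq2 v θ) := by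
        gcongr
    _ = gap v θ := by
        rw [gap]; field_simp

/-- the limit of `N (1 - cos (y / √N))` -/
theorem tendsto_sin (y : ℝ) :
    Tendsto (fun n : ℕ => (n : ℝ) * sin ((√(n : ℝ))⁻¹ * y) ^ 2) atTop (𝓝 (y ^ 2)) := by
  have h1 : Tendsto (fun n : ℕ => (√(n : ℝ))⁻¹ * y) atTop (𝓝 0) := by
    have h2 : Tendsto (fun n : ℕ => √(n : ℝ)) atTop atTop :=
      tendsto_sqrt_atTop.comp tendsto_natCast_atTop_atTop
    simpa using h2.inv_tendsto_atTop.mul_const y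
  have h3 : Tendsto (fun n : ℕ => y ^ 2 * sinc ((√(n : ℝ))⁻¹ * y) ^ 2) atTop
      (𝓝 (y ^ 2 * 1 ^ 2)) := by
    refine Tendsto.const_mul _ (Tendsto.pow ?_ 2)
    have := (continuous_sinc.tendsto 0).comp h1
    rwa [sinc_zero] at this
  rw [one_pow, mul_one] at h3
  refine h3.congr' ?_
  filter_upwards [eventually_gt_atTop 0] with n hn
  have hn' : (0 : ℝ) < n := by exact_mod_cast hn
  have hs : 0 < √(n : ℝ) := sqrt_pos.2 hn'
  by_cases hy : y = 0
  · simp [hy]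
  have hne : (√(n : ℝ))⁻¹ * y ≠ 0 := mul_ne_zero (inv_ne_zero hs.ne') hy
  rw [sinc_of_ne_zero hne, div_pow, mul_pow, inv_pow, sq_sqrt hn'.le]
  field_simp

/-- the rescaled deficit converges to the quadratic form -/
theorem tendsto_gap (v : ι → Fin k → ℤ) (x : Fin k → ℝ) :
    Tendsto (fun n : ℕ => (n : ℝ) * gap v ((√(n : ℝ))⁻¹ • x)) atTop (𝓝 (qf v x)) := by
  have h1 : ∀ l m : ι, Tendsto (fun n : ℕ => (n : ℝ) *
      sin (ip (v l - v m) ((√(n : ℝ))⁻¹ • x) / 2) ^ 2) atTop (𝓝 ((ip (v l - v m) x / 2) ^ 2)) := by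
    intro l m
    refine (tendsto_sin (ip (v l - v m) x / 2)).congr fun n => ?_
    rw [ip_smul, mul_div_assoc]
  have h2 := tendsto_finsetSum (Finset.univ : Finset ι) fun l _ =>
    tendsto_finsetSum (Finset.univ : Finset ι) fun m _ => h1 l m
  have h3 := h2.const_mul (2 / (Fintype.card ι : ℝ) ^ 2)
  have h4 : 2 / (Fintype.card ι : ℝ) ^ 2 * ∑ l, ∑ m, (ip (v l - v m) x / 2) ^ 2 = qf v x := by
    rw [qf]
    simp only [div_pow, ← Finset.sum_div]
    ring
  rw [h4] at h3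
  refine h3.congr fun n => ?_
  rw [gap, sq2]
  simp only [← Finset.mul_sum]
  ring

theorem qf_ge [Nonempty ι] (v : ι → Fin k → ℤ)
    (hv : AddSubgroup.closure {w | ∃ l m, w = v l - v m} = ⊤) :
    ∃ c : ℝ, 0 < c ∧ ∀ x : Fin k → ℝ, c * ∑ r, x r ^ 2 ≤ qf v x := by
  obtain ⟨c, hc, h⟩ := gap_ge v hv
  refine ⟨c, hc, fun x => ge_of_tendsto (tendsto_gap v x) ?_⟩
  have h2 : Tendsto (fun n : ℕ => √(n : ℝ)) atTop atTop :=
    tendsto_sqrt_atTop.comp tendsto_natCast_atTop_atTop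
  have h3 : ∀ r : Fin k, ∀ᶠ n : ℕ in atTop, |(√(n : ℝ))⁻¹ * x r| < π := by
    intro r
    have h4 : Tendsto (fun n : ℕ => |(√(n : ℝ))⁻¹ * x r|) atTop (𝓝 0) := by
      simpa using (h2.inv_tendsto_atTop.mul_const (x r)).abs
    exact h4.eventually_lt_const pi_pos
  filter_upwards [eventually_gt_atTop 0, eventually_all.2 h3] with n hn h4
  have hn' : (0 : ℝ) < n := by exact_mod_cast hn
  have h5 : (√(n : ℝ))⁻¹ • x ∈ cube k := by
    intro r _
    have := abs_lt.1 (h4 r)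
    exact ⟨this.1, this.2.le⟩
  have h6 := mul_le_mul_of_nonneg_left (h _ h5) hn'.le
  refine le_trans (le_of_eq ?_) h6
  have h7 : ∑ r, ((√(n : ℝ))⁻¹ • x) r ^ 2 = (n : ℝ)⁻¹ * ∑ r, x r ^ 2 := by
    rw [Finset.mul_sum]
    refine Finset.sum_congr rfl fun r _ => ?_
    rw [Pi.smul_apply, smul_eq_mul, mul_pow, inv_pow, sq_sqrt hn'.le]
  rw [h7]; field_simp

end Pool.Agent.Run7.h946.GL
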