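import Pool.Agent.Run7.h946.GL.LcltA

/-!
# A local limit theorem for pairs of words, part B: the Fourier integral
-/

set_option autoImplicit false

open MeasureTheory Filter Topology Real

namespace Pool.Agent.Run7.h946.GL

variable {ι : Type*} [Fintype ι] {k : ℕ}

/-- The number of the pairs of words of length `N` in the letters `ι` with equal sums of the vectors `v`. -/
noncomputable def pairs {ι : Type*} {k : ℕ} (v : ι → Fin k → ℤ) (N : ℕ) : ℕ :=
  Nat.card {x : (Fin N → ι) × (Fin N → ι) // ∑ t, v (x.1 t) = ∑ t, v (x.2 t)}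

/-- the character of the torus -/
noncomputable def ex (z : Fin k → ℤ) (θ : Fin k → ℝ) : ℂ := Complex.exp (Complex.I * (ip z θ : ℂ))

theorem ex_add (z w : Fin k → ℤ) (θ : Fin k → ℝ) : ex (z + w) θ = ex z θ * ex w θ := by
  rw [ex, ex, ex, ← Complex.exp_add, ip_add]; push_cast; ring_nf

theorem ex_zero (θ : Fin k → ℝ) : ex 0 θ = 1 := by simp [ex, ip_zero]

theorem ex_sum {α : Type*} (s : Finset α) (f : α → Fin k → ℤ) (θ : Fin k → ℝ) :
    ex (∑ a ∈ s, f a) θ = ∏ a ∈ s, ex (f a) θ := by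
  classical
  induction s using Finset.induction_on with
  | empty => simp [ex_zero]
  | insert a s ha ih => rw [Finset.sum_insert ha, Finset.prod_insert ha, ex_add, ih]

theorem continuous_ex (z : Fin k → ℤ) : Continuous (ex z) := by
  unfold ex ip; fun_prop

theorem ex_re_im (z : Fin k → ℤ) (θ : Fin k → ℝ) :
    ex z θ = (cos (ip z θ) : ℂ) + (sin (ip z θ) : ℂ) * Complex.I := by
  rw [ex, mul_comm, Complex.exp_mul_I]; push_cast; ring

theorem sum_sum_ex (v : ι → Fin k → ℤ) (θ : Fin k → ℝ) [Nonempty ι] :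
    ∑ l, ∑ m, ex (v l - v m) θ = (((Fintype.card ι : ℝ) ^ 2 * (1 - gap v θ) : ℝ) : ℂ) := by
  have hb : (Fintype.card ι : ℝ) ≠ 0 := by exact_mod_cast Fintype.card_ne_zero
  have h1 : ∑ l, ∑ m, sin (ip (v l - v m) θ) = 0 := by
    have h2 : ∑ l, ∑ m, sin (ip (v l - v m) θ) = -∑ l, ∑ m, sin (ip (v l - v m) θ) := by
      conv_lhs => rw [Finset.sum_comm]
      rw [← Finset.sum_neg_distrib]
      refine Finset.sum_congr rfl fun l _ => ?_
      rw [← Finset.sum_neg_distrib]
      refine Finset.sum_congr rfl fun m _ => ?_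
      rw [← sin_neg, ← ip_neg, neg_sub]
    linarith
  have h3 : ∑ l, ∑ m, cos (ip (v l - v m) θ) = (Fintype.card ι : ℝ) ^ 2 * (1 - gap v θ) := by
    have h4 : ∀ y : ℝ, cos y = 1 - 2 * sin (y / 2) ^ 2 := by
      intro y
      have := cos_two_mul (y / 2)
      rw [mul_div_cancel₀ y (two_ne_zero)] at this
      rw [this, cos_sq']; ring
    rw [gap, sq2]
    simp only [h4]
    simp only [Finset.sum_sub_distrib, Finset.sum_const, Finset.card_univ, ← Finset.mul_sum,
      nsmul_eq_mul, mul_one]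
    field_simp
  calc ∑ l, ∑ m, ex (v l - v m) θ
      = ((∑ l, ∑ m, cos (ip (v l - v m) θ) : ℝ) : ℂ) +
        ((∑ l, ∑ m, sin (ip (v l - v m) θ) : ℝ) : ℂ) * Complex.I := by
        push_cast
        rw [Finset.sum_mul, ← Finset.sum_add_distrib]
        refine Finset.sum_congr rfl fun l _ => ?_
        rw [Finset.sum_mul, ← Finset.sum_add_distrib]
        refine Finset.sum_congr rfl fun m _ => ?_
        rw [ex_re_im]; push_cast; ring
    _ = _ := by rw [h1, h3]; simp

theorem pow_eq_sum (v : ι → Fin k → ℤ) (θ : Fin k → ℝ) [Nonempty ι] (N : ℕ) :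
    ((((Fintype.card ι : ℝ) ^ 2 * (1 - gap v θ)) ^ N : ℝ) : ℂ) =
      ∑ x : (Fin N → ι) × (Fin N → ι), ex (∑ t, v (x.1 t) - ∑ t, v (x.2 t)) θ := by
  classical
  have h1 : ∑ l, ∑ m, ex (v l - v m) θ = (∑ l, ex (v l) θ) * ∑ m, ex (-v m) θ := by
    rw [Finset.sum_mul_sum]
    exact Finset.sum_congr rfl fun l _ => Finset.sum_congr rfl fun m _ => by
      rw [sub_eq_add_neg, ex_add]
  rw [Complex.ofReal_pow, ← sum_sum_ex, h1, mul_pow, Fintype.sum_pow, Fintype.sum_pow,
    Finset.sum_mul_sum, Fintype.sum_prod_type]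
  refine Finset.sum_congr rfl fun I _ => Finset.sum_congr rfl fun J _ => ?_
  rw [sub_eq_add_neg, ex_add, ex_sum, ← Finset.sum_neg_distrib, ex_sum]

theorem integral_one_dim (z : ℤ) :
    ∫ t in Set.Ioc (-π) π, Complex.exp (Complex.I * ((z : ℝ) * (t : ℝ) : ℝ)) =
      if z = 0 then ((2 * π : ℝ) : ℂ) else 0 := by
  have hpi : -π ≤ π := by linarith [pi_pos]
  rw [← intervalIntegral.integral_of_le hpi]
  split_ifs with h
  · subst h
    simp
    ring
  · have hc : Complex.I * (z : ℂ) ≠ 0 := mul_ne_zero Complex.I_ne_zero (by exact_mod_cast h)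
    have h1 : ∀ t : ℝ, Complex.exp (Complex.I * ((z : ℝ) * (t : ℝ) : ℝ)) =
        Complex.exp ((Complex.I * (z : ℂ)) * t) := by
      intro t; push_cast; ring_nf
    simp only [h1]
    rw [integral_exp_mul_complex hc]
    have h2 : Complex.exp (Complex.I * (z : ℂ) * (π : ℝ)) =
        Complex.exp (Complex.I * (z : ℂ) * ((-π : ℝ) : ℂ)) := by
      rw [Complex.exp_eq_exp_iff_exists_int]
      exact ⟨z, by push_cast; ring⟩
    rw [h2, sub_self, zero_div]

theorem restrict_cube : (volume : Measure (Fin k → ℝ)).restrict (cube k) =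
    Measure.pi fun _ : Fin k => (volume : Measure ℝ).restrict (Set.Ioc (-π) π) := by
  rw [cube, volume_pi, Measure.restrict_pi_pi]

theorem integral_ex (z : Fin k → ℤ) [DecidableEq (Fin k → ℤ)] :
    ∫ θ in cube k, ex z θ = if z = 0 then (((2 * π) ^ k : ℝ) : ℂ) else 0 := by
  have h1 : ∀ θ : Fin k → ℝ, ex z θ =
      ∏ r, Complex.exp (Complex.I * (((z r : ℝ) * (θ r : ℝ) : ℝ) : ℂ)) := by
    intro θ
    rw [← Complex.exp_sum, ex, ip]
    congr 1
    push_cast
    rw [Finset.mul_sum]
  simp only [h1]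
  rw [restrict_cube, integral_fintype_prod_eq_prod (𝕜 := ℂ)
    (f := fun r (t : ℝ) => Complex.exp (Complex.I * (((z r : ℝ) * t : ℝ) : ℂ)))]
  simp only [integral_one_dim]
  split_ifs with h
  · subst h
    simp
  · obtain ⟨r, hr⟩ : ∃ r, z r ≠ 0 := by
      by_contra hc
      push Not at hc
      exact h (funext hc)
    exact Finset.prod_eq_zero (Finset.mem_univ r) (by simp [hr])

theorem volume_cube_lt_top : (volume : Measure (Fin k → ℝ)) (cube k) < ⊤ := by
  rw [cube, Real.volume_pi_Ioc]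
  exact ENNReal.prod_lt_top fun _ _ => ENNReal.ofReal_lt_top

theorem measurableSet_cube : MeasurableSet (cube k) :=
  MeasurableSet.univ_pi fun _ => measurableSet_Ioc

theorem integrableOn_ex (z : Fin k → ℤ) : IntegrableOn (ex z) (cube k) := by
  refine Measure.integrableOn_of_bounded (M := 1) volume_cube_lt_top.ne
    (continuous_ex z).aestronglyMeasurable ?_
  refine Filter.Eventually.of_forall fun θ => ?_
  rw [ex, mul_comm, Complex.norm_exp_ofReal_mul_I]

/-- the Fourier integral -/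
theorem integral_gap (v : ι → Fin k → ℤ) [Nonempty ι] (N : ℕ) :
    ∫ θ in cube k, (1 - gap v θ) ^ N =
      (2 * π) ^ k * pairs v N / (Fintype.card ι : ℝ) ^ (2 * N) := by
  classical
  have hb : (Fintype.card ι : ℝ) ≠ 0 := by exact_mod_cast Fintype.card_ne_zero
  have h1 : ((∫ θ in cube k, ((Fintype.card ι : ℝ) ^ 2 * (1 - gap v θ)) ^ N : ℝ) : ℂ) =
      (((2 * π) ^ k * pairs v N : ℝ) : ℂ) := by
    rw [← integral_complex_ofReal]
    simp only [pow_eq_sum]
    rw [integral_finsetSum _ fun x _ => integrableOn_ex _]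
    simp only [integral_ex, sub_eq_zero]
    rw [← Finset.sum_filter, Finset.sum_const, pairs, Nat.card_eq_fintype_card,
      Fintype.card_subtype, nsmul_eq_mul]
    push_cast
    ring
  have h2 := Complex.ofReal_injective h1
  simp only [mul_pow, integral_const_mul] at h2
  rw [eq_div_iff (pow_ne_zero _ hb), pow_mul, mul_comm, h2]
  ring

end Pool.Agent.Run7.h946.GL
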