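import Pool.Agent.Run7.h946.GL.LcltB

/-!
# A local limit theorem for pairs of words, part C: the limit
-/

set_option autoImplicit false

open MeasureTheory Filter Topology Real

namespace Pool.Agent.Run7.h946.GL

variable {ι : Type*} [Fintype ι] {k : ℕ}

/-- the covariance matrix of the vectors `v l` -/
noncomputable def cov (v : ι → Fin k → ℤ) : Matrix (Fin k) (Fin k) ℝ := fun r s =>
  (∑ l, (v l r : ℝ) * v l s) / Fintype.card ι -
    (∑ l, (v l r : ℝ)) / Fintype.card ι * ((∑ l, (v l s : ℝ)) / Fintype.card ι)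

open Matrix in
theorem qf_eq [Nonempty ι] (v : ι → Fin k → ℤ) (x : Fin k → ℝ) :
    qf v x = x ⬝ᵥ (cov v *ᵥ x) := by
  have hb : (Fintype.card ι : ℝ) ≠ 0 := by exact_mod_cast Fintype.card_ne_zero
  have h1 : x ⬝ᵥ (cov v *ᵥ x) = (∑ l, ip (v l) x ^ 2) / Fintype.card ι -
      ((∑ l, ip (v l) x) / Fintype.card ι) ^ 2 := by
    have h2 : (∑ l, ip (v l) x ^ 2) = ∑ r, ∑ s, x r * x s * ∑ l, (v l r : ℝ) * v l s := by
      have h2' : ∀ l, ip (v l) x ^ 2 = ∑ r, ∑ s, x r * x s * ((v l r : ℝ) * v l s) := by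
        intro l
        rw [pow_two, ip, Finset.sum_mul_sum]
        refine Finset.sum_congr rfl fun r _ => Finset.sum_congr rfl fun s _ => ?_
        ring
      simp only [h2']
      rw [Finset.sum_comm]
      refine Finset.sum_congr rfl fun r _ => ?_
      rw [Finset.sum_comm]
      refine Finset.sum_congr rfl fun s _ => ?_
      rw [Finset.mul_sum]
    have h3 : (∑ l, ip (v l) x) ^ 2 = ∑ r, ∑ s, x r * x s *
        ((∑ l, (v l r : ℝ)) * ∑ l, (v l s : ℝ)) := by
      have h4 : ∑ l, ip (v l) x = ∑ r, (∑ l, (v l r : ℝ)) * x r := by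
        simp only [ip, Finset.sum_mul]
        exact Finset.sum_comm
      rw [h4, pow_two, Finset.sum_mul_sum]
      refine Finset.sum_congr rfl fun r _ => Finset.sum_congr rfl fun s _ => ?_
      ring
    rw [div_pow, h2, h3]
    simp only [dotProduct, mulVec, cov, Finset.mul_sum, Finset.sum_div]
    rw [← Finset.sum_sub_distrib]
    refine Finset.sum_congr rfl fun r _ => ?_
    rw [← Finset.sum_sub_distrib]
    refine Finset.sum_congr rfl fun s _ => ?_
    simp only [← Finset.mul_sum, ← Finset.sum_div]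
    field_simp
  rw [h1, qf]
  have h5 : ∑ l, ∑ m, ip (v l - v m) x ^ 2 =
      2 * (Fintype.card ι * ∑ l, ip (v l) x ^ 2) - 2 * (∑ l, ip (v l) x) ^ 2 := by
    have h6 : ∀ l m, ip (v l - v m) x ^ 2 =
        ip (v l) x ^ 2 + ip (v m) x ^ 2 - 2 * (ip (v l) x * ip (v m) x) := by
      intro l m; rw [ip_sub]; ring
    simp only [h6, Finset.sum_add_distrib, Finset.sum_sub_distrib, ← Finset.mul_sum,
      ← Finset.sum_mul, Finset.sum_const, Finset.card_univ, nsmul_eq_mul]
    ring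
  rw [h5]; field_simp

open Matrix in
theorem posDef_cov [Nonempty ι] (v : ι → Fin k → ℤ)
    (hv : AddSubgroup.closure {w | ∃ l m, w = v l - v m} = ⊤) : (cov v).PosDef := by
  obtain ⟨c, hc, h⟩ := qf_ge v hv
  refine Matrix.PosDef.of_dotProduct_mulVec_pos ?_ ?_
  · ext r s
    simp only [conjTranspose_apply, cov, star_trivial]
    rw [mul_comm ((∑ l, (v l s : ℝ)) / _)]
    simp only [mul_comm]
  · intro x hx
    have h1 : star x = x := by ext; simp
    rw [h1, ← qf_eq]
    refine lt_of_lt_of_le ?_ (h x)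
    obtain ⟨r, hr⟩ := Function.ne_iff.1 hx
    have h2 : 0 < ∑ r, x r ^ 2 :=
      lt_of_lt_of_le (pow_pos (abs_pos.2 hr) 2 |>.trans_eq (sq_abs _))
        (Finset.single_le_sum (f := fun r => x r ^ 2) (fun _ _ => sq_nonneg _) (Finset.mem_univ r))
    positivity

theorem det_cov_pos [Nonempty ι] (v : ι → Fin k → ℤ)
    (hv : AddSubgroup.closure {w | ∃ l m, w = v l - v m} = ⊤) : 0 < (cov v).det :=
  (posDef_cov v hv).det_pos

theorem integrable_exp_sum {c : ℝ} (hc : 0 < c) :
    Integrable (fun x : Fin k → ℝ => exp (-(c * ∑ r, x r ^ 2))) := by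
  have h1 : ∀ x : Fin k → ℝ, exp (-(c * ∑ r, x r ^ 2)) = ∏ r, exp (-c * x r ^ 2) := by
    intro x
    rw [← exp_sum, Finset.mul_sum, ← Finset.sum_neg_distrib]
    simp only [neg_mul]
  simp only [h1]
  exact Integrable.fintype_prod (f := fun _ : Fin k => fun t : ℝ => exp (-c * t ^ 2))
    fun _ => integrable_exp_neg_mul_sq hc

open Matrix in
/-- the Gaussian integral -/
theorem integral_gauss {A : Matrix (Fin k) (Fin k) ℝ} (hA : A.PosDef) :
    ∫ x : Fin k → ℝ, exp (-(x ⬝ᵥ (A *ᵥ x))) = √π ^ k / √A.det := by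
  classical
  open scoped MatrixOrder in
  obtain ⟨B, hB⟩ := CStarAlgebra.nonneg_iff_eq_star_mul_self.mp hA.posSemidef.nonneg
  have hd : A.det = B.det ^ 2 := by
    rw [hB, det_mul, star_eq_conjTranspose, det_conjTranspose, star_trivial, pow_two]
  have hB0 : B.det ≠ 0 := by
    intro h
    have := hA.det_pos
    rw [hd, h] at this
    simp at this
  have h1 : ∀ x : Fin k → ℝ, exp (-(x ⬝ᵥ (A *ᵥ x))) =
      (fun y : Fin k → ℝ => ∏ r, exp (-1 * y r ^ 2)) (toLin' B x) := by
    intro x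
    simp only [toLin'_apply]
    rw [← exp_sum]
    congr 1
    have h2 : x ⬝ᵥ (A *ᵥ x) = (B *ᵥ x) ⬝ᵥ (B *ᵥ x) := by
      rw [hB, ← mulVec_mulVec, dotProduct_mulVec, star_eq_conjTranspose, vecMul_conjTranspose]
      simp
    rw [h2, dotProduct, ← Finset.sum_neg_distrib]
    exact Finset.sum_congr rfl fun r _ => by ring
  simp only [h1]
  have hmeas : Continuous (toLin' B) := LinearMap.continuous_of_finiteDimensional _
  have h3 := integral_map (μ := (volume : Measure (Fin k → ℝ))) hmeas.aemeasurable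
    (f := fun y : Fin k → ℝ => ∏ r, exp (-1 * y r ^ 2))
    (by
      apply Continuous.aestronglyMeasurable
      fun_prop)
  rw [← h3, Real.map_matrix_volume_pi_eq_smul_volume_pi hB0, integral_smul_measure,
    integral_fintype_prod_volume_eq_pow (fun t : ℝ => exp (-1 * t ^ 2)), integral_gaussian,
    hd, sqrt_sq_eq_abs, ENNReal.toReal_ofReal (abs_nonneg _), abs_inv, smul_eq_mul,
    Fintype.card_fin, div_one]
  field_simp

/-- the rescaled function -/
noncomputable def fN (v : ι → Fin k → ℤ) (N : ℕ) (θ : Fin k → ℝ) : ℝ :=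
  (cube k).indicator (fun θ => (1 - gap v θ) ^ N) θ

theorem one_sub_gap_nonneg [Nonempty ι] (v : ι → Fin k → ℤ) (θ : Fin k → ℝ) :
    0 ≤ 1 - gap v θ := by
  have hb : (0 : ℝ) < Fintype.card ι := by exact_mod_cast Fintype.card_pos
  have h1 : ∑ l, ∑ m, ex (v l - v m) θ = (∑ l, ex (v l) θ) * (starRingEnd ℂ) (∑ l, ex (v l) θ) := by
    rw [map_sum, Finset.sum_mul_sum]
    refine Finset.sum_congr rfl fun l _ => Finset.sum_congr rfl fun m _ => ?_
    rw [sub_eq_add_neg, ex_add]
    congr 1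
    rw [ex, ex, ← Complex.exp_conj, map_mul, Complex.conj_I, Complex.conj_ofReal, ip_neg]
    push_cast; ring_nf
  rw [sum_sum_ex, Complex.mul_conj] at h1
  have h2 := Complex.ofReal_injective h1
  have h3 := Complex.normSq_nonneg (∑ l, ex (v l) θ)
  rw [← h2] at h3
  exact nonneg_of_mul_nonneg_right h3 (by positivity)

theorem tendsto_fN [Nonempty ι] (v : ι → Fin k → ℤ) (x : Fin k → ℝ) :
    Tendsto (fun n : ℕ => fN v n ((√(n : ℝ))⁻¹ • x)) atTop (𝓝 (exp (-qf v x))) := by
  have h1 := (tendsto_gap v x).neg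
  have h2 : Tendsto (fun n : ℕ => (n : ℝ) * (-gap v ((√(n : ℝ))⁻¹ • x))) atTop
      (𝓝 (-qf v x)) := h1.congr fun n => by ring
  refine (Real.tendsto_one_add_pow_exp_of_tendsto h2).congr' ?_
  have h2 : Tendsto (fun n : ℕ => √(n : ℝ)) atTop atTop :=
    tendsto_sqrt_atTop.comp tendsto_natCast_atTop_atTop
  have h3 : ∀ r : Fin k, ∀ᶠ n : ℕ in atTop, |(√(n : ℝ))⁻¹ * x r| < π := by
    intro r
    have h4 : Tendsto (fun n : ℕ => |(√(n : ℝ))⁻¹ * x r|) atTop (𝓝 0) := by
      simpa using (h2.inv_tendsto_atTop.mul_const (x r)).abs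
    exact h4.eventually_lt_const pi_pos
  filter_upwards [eventually_all.2 h3] with n h4
  have h5 : (√(n : ℝ))⁻¹ • x ∈ cube k := by
    intro r _
    have := abs_lt.1 (h4 r)
    exact ⟨this.1, this.2.le⟩
  rw [fN, Set.indicator_of_mem h5, sub_eq_add_neg]

theorem norm_fN_le [Nonempty ι] (v : ι → Fin k → ℤ) {c : ℝ}
    (h : ∀ θ ∈ cube k, c * ∑ r, θ r ^ 2 ≤ gap v θ) (n : ℕ) (hn : 0 < n) (x : Fin k → ℝ) :
    ‖fN v n ((√(n : ℝ))⁻¹ • x)‖ ≤ exp (-(c * ∑ r, x r ^ 2)) := by
  have hn' : (0 : ℝ) < n := by exact_mod_cast hn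
  rw [fN]
  by_cases h5 : (√(n : ℝ))⁻¹ • x ∈ cube k
  · rw [Set.indicator_of_mem h5, norm_of_nonneg (pow_nonneg (one_sub_gap_nonneg v _) _)]
    have h7 : ∑ r, ((√(n : ℝ))⁻¹ • x) r ^ 2 = (n : ℝ)⁻¹ * ∑ r, x r ^ 2 := by
      rw [Finset.mul_sum]
      refine Finset.sum_congr rfl fun r _ => ?_
      rw [Pi.smul_apply, smul_eq_mul, mul_pow, inv_pow, sq_sqrt hn'.le]
    have h6 := h _ h5
    rw [h7] at h6
    calc (1 - gap v ((√(n : ℝ))⁻¹ • x)) ^ n
        ≤ (exp (-gap v ((√(n : ℝ))⁻¹ • x))) ^ n := by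
          refine pow_le_pow_left₀ (one_sub_gap_nonneg v _) ?_ n
          have := add_one_le_exp (-gap v ((√(n : ℝ))⁻¹ • x))
          linarith
      _ = exp (n * -gap v ((√(n : ℝ))⁻¹ • x)) := by rw [← exp_nat_mul]
      _ ≤ _ := by
          rw [exp_le_exp]
          have h8 := mul_le_mul_of_nonneg_left h6 hn'.le
          have h9 : (n : ℝ) * (c * ((n : ℝ)⁻¹ * ∑ r, x r ^ 2)) = c * ∑ r, x r ^ 2 := by
            field_simp
          linarith
  · rw [Set.indicator_of_notMem h5, norm_zero]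
    exact (exp_pos _).le

/-- **The local limit theorem for pairs of words.** -/
theorem tendsto_pairs [Nonempty ι] (v : ι → Fin k → ℤ)
    (hv : AddSubgroup.closure {w | ∃ l m, w = v l - v m} = ⊤) :
    Tendsto (fun n : ℕ => (pairs v n : ℝ) * √(cov v).det * √(4 * π * n) ^ k /
      (Fintype.card ι : ℝ) ^ (2 * n)) atTop (𝓝 1) := by
  have hb : (Fintype.card ι : ℝ) ≠ 0 := by exact_mod_cast Fintype.card_ne_zero
  obtain ⟨c, hc, h⟩ := gap_ge v hv
  have hdet := det_cov_pos v hv
  have h1 : Tendsto (fun n : ℕ => ∫ x : Fin k → ℝ, fN v n ((√(n : ℝ))⁻¹ • x)) atTop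
      (𝓝 (∫ x : Fin k → ℝ, exp (-qf v x))) := by
    refine tendsto_integral_filter_of_dominated_convergence
      (fun x => exp (-(c * ∑ r, x r ^ 2))) ?_ ?_ (integrable_exp_sum hc) ?_
    · refine Filter.Eventually.of_forall fun n => ?_
      have h2 : Measurable (fN v n) :=
        (((continuous_const.sub (continuous_gap v)).pow n).measurable).indicator measurableSet_cube
      exact (h2.comp (measurable_const_smul _)).aestronglyMeasurable
    · filter_upwards [eventually_gt_atTop 0] with n hn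
      exact Filter.Eventually.of_forall fun x => norm_fN_le v h n hn x
    · exact Filter.Eventually.of_forall fun x => tendsto_fN v x
  have h2 : ∫ x : Fin k → ℝ, exp (-qf v x) = √π ^ k / √(cov v).det := by
    simp only [qf_eq]
    exact integral_gauss (posDef_cov v hv)
  rw [h2] at h1
  have h3 := h1.mul_const (√(cov v).det * (√(4 * π) ^ k / (2 * π) ^ k))
  have h4 : √π ^ k / √(cov v).det * (√(cov v).det * (√(4 * π) ^ k / (2 * π) ^ k)) = 1 := by
    have h5 : √(cov v).det ≠ 0 := (sqrt_pos.2 hdet).ne'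
    have h6 : √(4 * π) = 2 * √π := by
      rw [sqrt_mul (by norm_num), show (4 : ℝ) = 2 ^ 2 by norm_num, sqrt_sq (by norm_num)]
    have h7 : √π ^ k * √(4 * π) ^ k = (2 * π) ^ k := by
      rw [← mul_pow, h6]
      congr 1
      have := mul_self_sqrt pi_pos.le
      linarith
    have h8 : (2 * π) ^ k ≠ 0 := by positivity
    field_simp
    rw [h7, mul_comm π 2]
  rw [h4] at h3
  refine h3.congr' ?_
  filter_upwards [eventually_gt_atTop 0] with n hn
  have hn' : (0 : ℝ) < n := by exact_mod_cast hn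
  have h9 := Measure.integral_comp_smul (volume : Measure (Fin k → ℝ)) (fN v n) ((√(n : ℝ))⁻¹)
  rw [h9]
  have h10 : ∫ x : Fin k → ℝ, fN v n x =
      (2 * π) ^ k * pairs v n / (Fintype.card ι : ℝ) ^ (2 * n) := by
    rw [← integral_gap v n]
    simp only [fN]
    rw [integral_indicator measurableSet_cube]
  have h11 : Module.finrank ℝ (Fin k → ℝ) = k := by simp
  have h13 : √(4 * π * n) = √(4 * π) * √n := sqrt_mul (by positivity) _
  rw [h10, h11, smul_eq_mul, h13, abs_of_nonneg (by positivity), mul_pow]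
  have h12 : √(n : ℝ) ≠ 0 := (sqrt_pos.2 hn').ne'
  rw [inv_pow, inv_inv]
  field_simp
  rw [mul_pow]; ring

end Pool.Agent.Run7.h946.GL
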