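import Pool.Agent.Y163.TateC

/-!
# Strict inclusions of stable families increase the index
-/

set_option autoImplicit false
set_option linter.unusedVariables false
set_option linter.unusedSectionVars false

open CategoryTheory AlgebraicGeometry CategoryTheory.Limits Filter Topology

universe u v

namespace Pool.Agent.Run7.h946.GL

open Pool.Agent.H914 Pool.Agent.H447 Pool.Agent.W534 Pool.Agent.Y163 VarClass Obj
  WeilCohomology Module

section Lin

variable {K : Type*} [Field K] {V : Type*} [AddCommGroup V] [Module K V] [Module.Finite K V]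
  [CharZero K] {B : Subalgebra K (End K V)}

/-- a stable subspace is contained in another one if its images under the representatives of the
primitive idempotents are -/
theorem stable_le (w : Wed B) {T T' : Submodule K V} (hT : ∀ f ∈ B, ∀ t ∈ T, f t ∈ T)
    (hT' : ∀ f ∈ B, ∀ t ∈ T', f t ∈ T') (h : ∀ c, T'.map (w.e (w.rep c)) ≤ T) : T' ≤ T := by
  classical
  have hc : ∀ i, ∃ u ∈ B, ∃ v ∈ B, w.e (w.rep (w.κ i)) * v = v ∧ u * v - w.e i ∈ rad B := by
    intro i
    obtain ⟨u, hu, v, hv, -, -, hev, -, huv, -⟩ := w.conn i (w.rep (w.κ i)) (w.κ_rep _).symm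
    exact ⟨u, hu, v, hv, hev, huv⟩
  choose u hu v hv hev huv using hc
  let ρ : End K V := ∑ i, -(u i * v i - w.e i)
  have hρ : ρ ∈ rad B := Submodule.sum_mem _ fun i _ => Submodule.neg_mem _ (huv i)
  obtain ⟨N, hN⟩ := exists_nilp B
  have hρN : ρ ^ N = 0 := by
    have := hN (List.replicate N ρ) (fun x hx => by rw [List.eq_of_mem_replicate hx]; exact hρ)
      (List.length_replicate)
    rwa [List.prod_replicate] at this
  intro x hx
  have h1 : (1 - ρ) x ∈ T := by
    have h2 : (1 : End K V) - ρ = ∑ i, u i * v i := by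
      simp only [ρ]
      rw [← w.e_sum, ← Finset.sum_sub_distrib]
      exact Finset.sum_congr rfl fun i _ => by abel
    rw [h2, LinearMap.sum_apply]
    refine Submodule.sum_mem _ fun i _ => ?_
    rw [Module.End.mul_apply]
    refine hT _ (hu i) _ (h (w.κ i) ⟨v i x, hT' _ (hv i) _ hx, ?_⟩)
    rw [← Module.End.mul_apply, hev]
  have h3 : (∑ j ∈ Finset.range N, ρ ^ j) * (1 - ρ) = 1 := by
    rw [geom_sum_mul_neg, hρN, sub_zero]
  have h4 : x = (∑ j ∈ Finset.range N, ρ ^ j) ((1 - ρ) x) := by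
    rw [← Module.End.mul_apply, h3, Module.End.one_apply]
  rw [h4]
  exact hT _ (B.sum_mem fun j _ => B.pow_mem hρ.1 j) _ h1

/-- strict inclusions increase the sum of the products -/
theorem sum_lt (w : Wed B) {T T' : Submodule K V} (hT : ∀ f ∈ B, ∀ t ∈ T, f t ∈ T)
    (hT' : ∀ f ∈ B, ∀ t ∈ T', f t ∈ T') (hle : T ≤ T') (hne : ¬ T' ≤ T) :
    ∑ c, finrank K (LinearMap.range (w.e (w.rep c))) * finrank K (T.map (w.e (w.rep c))) + 1 ≤
      ∑ c, finrank K (LinearMap.range (w.e (w.rep c))) * finrank K (T'.map (w.e (w.rep c))) := by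
  classical
  have hs : ∀ c, 0 < finrank K (LinearMap.range (w.e (w.rep c))) := by
    intro c
    have := rank_idem_ne (K := K) (w.e_ne (w.rep c))
    exact Nat.pos_of_ne_zero (fun h => this (by rw [h, Nat.cast_zero]))
  have hle' : ∀ c, finrank K (T.map (w.e (w.rep c))) ≤ finrank K (T'.map (w.e (w.rep c))) :=
    fun c => Submodule.finrank_mono (Submodule.map_mono hle)
  obtain ⟨c, hc⟩ : ∃ c, finrank K (T.map (w.e (w.rep c))) < finrank K (T'.map (w.e (w.rep c))) := by
    by_contra hcon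
    push Not at hcon
    apply hne
    refine stable_le w hT hT' fun c => ?_
    have h1 : T.map (w.e (w.rep c)) = T'.map (w.e (w.rep c)) :=
      Submodule.eq_of_le_of_finrank_le (Submodule.map_mono hle) (hcon c)
    rw [← h1]
    rintro _ ⟨t, ht, rfl⟩
    exact hT _ (w.e_mem _) _ ht
  refine Nat.succ_le_of_lt (Finset.sum_lt_sum (fun c _ => Nat.mul_le_mul_left _ (hle' c))
    ⟨c, Finset.mem_univ c, Nat.mul_lt_mul_of_pos_left hc (hs c)⟩)

end Lin

section Seq

variable {α : ℕ → ℕ} {b e : ℕ}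

/-- the lower bound for the ratio given by one level -/
theorem level_lower {z : ℕ → ℕ} (hb : 0 < b) (h1 : ∀ n, α (n + 1) ≤ b * α n)
    (h2 : ∀ n, α (n + 1) ^ 2 ≤ α n * α (n + 2)) (h3 : ∀ n, b ^ (n + 1) ≤ α n * (n + 2) ^ e)
    {k : ℕ} (l : Level α z b k) :
    ∃ δ : ℕ → ℝ, Tendsto δ atTop (𝓝 0) ∧
      ∀ M, ((∑ c, l.s c * l.t c : ℕ) : ℝ) - δ M ≤ (z M : ℝ) / α M := by
  have hpos : ∀ n, 0 < α n := by
    intro n
    apply Nat.pos_of_ne_zero
    intro h
    have := h3 n
    rw [h, zero_mul] at this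
    exact absurd (pow_pos hb (n + 1)) (by omega)
  have hposR : ∀ n, (0 : ℝ) < α n := fun n => by exact_mod_cast hpos n
  have hlim := tendsto_ratio hb h1 h2 h3
  set T : ℝ := ∑ c, (l.t c : ℝ) with hT
  set η : ℕ → ℝ := fun M => (b : ℝ) ^ (k + 1) - (α (M + (k + 1)) : ℝ) / α M with hη
  have hη0 : Tendsto η atTop (𝓝 0) := by
    have := (tendsto_ratio_pow hpos hlim (k + 1)).const_sub ((b : ℝ) ^ (k + 1))
    rwa [sub_self] at this
  refine ⟨fun M => η M * T, by simpa using hη0.mul_const T, fun M => ?_⟩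
  have hN : ∀ c, ((l.s c : ℝ) - η M) * α M ≤ l.N M c := by
    intro c
    have e1 : ∀ c, (0 : ℝ) ≤ l.s c * α M - l.N M c := by
      intro c
      have := l.N_le M c
      have h4 : (l.N M c : ℝ) ≤ l.s c * α M := by exact_mod_cast this
      linarith
    have e2 : (l.s c : ℝ) * α M - l.N M c ≤ ∑ c, (l.m c : ℝ) * (l.s c * α M - l.N M c) := by
      calc (l.s c : ℝ) * α M - l.N M c ≤ l.m c * (l.s c * α M - l.N M c) := by
            have h5 : (1 : ℝ) ≤ l.m c := by exact_mod_cast l.m_pos c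
            nlinarith [e1 c]
        _ ≤ ∑ c, (l.m c : ℝ) * (l.s c * α M - l.N M c) :=
            Finset.single_le_sum (f := fun c => (l.m c : ℝ) * (l.s c * α M - l.N M c))
              (fun c _ => mul_nonneg (Nat.cast_nonneg _) (e1 c)) (Finset.mem_univ c)
    have e3 : ∑ c, (l.m c : ℝ) * (l.s c * α M - l.N M c) =
        (∑ c, (l.m c : ℝ) * l.s c) * α M - ∑ c, (l.m c : ℝ) * l.N M c := by
      rw [Finset.sum_mul, ← Finset.sum_sub_distrib]
      apply Finset.sum_congr rfl
      intro c _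
      ring
    have e4 : (∑ c, (l.m c : ℝ) * l.s c) ≤ (b : ℝ) ^ (k + 1) := by exact_mod_cast l.sum_ms
    have e5 : (α (M + (k + 1)) : ℝ) ≤ ∑ c, (l.m c : ℝ) * l.N M c := by
      have := l.le_sum M
      rw [show k + M + 1 = M + (k + 1) by ring] at this
      exact_mod_cast this
    have e6 : η M * α M = (b : ℝ) ^ (k + 1) * α M - α (M + (k + 1)) := by
      simp only [hη]
      have := (hposR M).ne'
      field_simp
    have e7 : (∑ c, (l.m c : ℝ) * l.s c) * α M ≤ (b : ℝ) ^ (k + 1) * α M :=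
      mul_le_mul_of_nonneg_right e4 (hposR M).le
    have e8 : ((l.s c : ℝ) - η M) * α M = l.s c * α M - η M * α M := by ring
    rw [e8, e6]
    linarith
  rw [le_div_iff₀ (hposR M)]
  have h5 : (∑ c, (l.N M c : ℝ) * l.t c) ≤ z M := by exact_mod_cast l.sum_le M
  refine le_trans ?_ h5
  have h6 : (((∑ c, l.s c * l.t c : ℕ) : ℝ) - η M * T) * α M =
      ∑ c, ((l.s c : ℝ) - η M) * α M * l.t c := by
    push_cast
    rw [hT, Finset.mul_sum, ← Finset.sum_sub_distrib, Finset.sum_mul]
    apply Finset.sum_congr rfl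
    intro c _
    ring
  rw [h6]
  exact Finset.sum_le_sum fun c _ => mul_le_mul_of_nonneg_right (hN c) (Nat.cast_nonneg _)

end Seq

variable {k : Type u} [Field k] {𝒱 : VarClass k} {ops : CycleOps 𝒱}
  {W : WeilCohomology.{u, v} ops} {X Y Z U S : 𝒱.Obj}

/-- **Strict inclusions increase the index.** -/
theorem index_strict [IsAlgClosed W.K] (hX : par (W.isInternal X) ∈ KOp W X X 0)
    (hH : 0 < finrank W.K (W.H X)) {T T' : ∀ n, Submodule W.K (W.H (sq X n))}
    (hT : Stable W X T) (hT' : Stable W X T') (hle : ∀ n, T n ≤ T' n)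
    {m : ℕ} (hne : ∀ n, m ≤ n → ¬ T' n ≤ T n) {D D' : ℕ}
    (hD : Tendsto (fun n => (finrank W.K (T n) : ℝ) / mrank W X n) atTop (𝓝 D))
    (hD' : Tendsto (fun n => (finrank W.K (T' n) : ℝ) / mrank W X n) atTop (𝓝 D')) :
    D + 1 ≤ D' := by
  have hpos : ∀ n, (0 : ℝ) < mrank W X n := by
    intro n
    have h1 := mrank_growth hX n
    have h0 : 0 < mrank W X n := by
      apply Nat.pos_of_ne_zero
      intro h0
      rw [h0, zero_mul] at h1
      have h2 : 0 < (finrank W.K (W.H X) ^ 2) ^ (n + 1) := by positivity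
      omega
    exact_mod_cast h0
  -- upper bound for the sums
  have hup : ∀ κ, ∑ c, (level hX T' hT' κ).s c * (level hX T' hT' κ).t c ≤ D' := by
    intro κ
    obtain ⟨δ, hδ, h⟩ := level_lower (pow_pos hH 2) (mrank_succ_le hX) (mrank_sq_le hX)
      (mrank_growth hX) (level hX T' hT' κ)
    have h1 := hδ.const_sub (((∑ c, (level hX T' hT' κ).s c * (level hX T' hT' κ).t c : ℕ)) : ℝ)
    rw [sub_zero] at h1
    have h2 := le_of_tendsto_of_tendsto' h1 hD' h
    exact_mod_cast h2
  -- lower bound for the sums at large levels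
  have hlow : ∀ᶠ κ in atTop, D ≤ ∑ c, (level hX T hT κ).s c * (level hX T hT κ).t c := by
    have h1 : ∀ᶠ κ in atTop, (D : ℝ) - 1 < (finrank W.K (T κ) : ℝ) / mrank W X κ :=
      hD.eventually (lt_mem_nhds (by linarith))
    filter_upwards [h1] with κ hκ
    have h2 : (finrank W.K (T κ) : ℝ) / mrank W X κ ≤
        ((∑ c, (level hX T hT κ).s c * (level hX T hT κ).t c : ℕ) : ℝ) := by
      rw [div_le_iff₀ (hpos κ)]
      exact_mod_cast (level hX T hT κ).z_le
    have h3 := lt_of_lt_of_le hκ h2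
    have h4 : ((D : ℤ) : ℝ) < ((∑ c, (level hX T hT κ).s c * (level hX T hT κ).t c : ℕ) : ℤ) + 1 := by
      push_cast at h3 ⊢
      linarith
    have h5 : (D : ℤ) < ((∑ c, (level hX T hT κ).s c * (level hX T hT κ).t c : ℕ) : ℤ) + 1 := by
      exact_mod_cast h4
    omega
  obtain ⟨κ, h1, h2⟩ := (hlow.and (eventually_ge_atTop m)).exists
  have hstab : ∀ {T : ∀ n, Submodule W.K (W.H (sq X n))}, Stable W X T →
      ∀ f ∈ KAlg W (sq X κ), ∀ t ∈ T κ, f t ∈ T κ := fun hT f hf t ht =>
    hT κ κ f (KOp.cast (mem_KAlg.1 hf) (by ring)) t ht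
  have h3 := sum_lt (Classical.choice (exists_wed (KAlg W (sq X κ)))) (hstab hT) (hstab hT')
    (hle κ) (hne κ h2)
  exact (Nat.succ_le_succ h1).trans (h3.trans (hup κ))

end Pool.Agent.Run7.h946.GL
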