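import Pool.Agent.R940.Main
import Pool.Agent.Run7.h946.GL.LcltC

/-!
# Orders of poles and words in the eigenvalues of the Frobenius endomorphism
-/

set_option autoImplicit false
set_option linter.unusedVariables false
set_option linter.unusedSectionVars false

open CategoryTheory AlgebraicGeometry CategoryTheory.Limits

universe u v

namespace Pool.Agent.Run7.h946.GL

open Pool.Agent.H914 Pool.Agent.H447 Pool.Agent.W534 Pool.Agent.Y163 Pool.Agent.R940 VarClass Obj
  WeilCohomology Module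

variable {k : Type u} [Field k] {𝒱 : VarClass k} {ops : CycleOps 𝒱}
  {W : WeilCohomology.{u, v} ops} {X Y Z U S : 𝒱.Obj} {p : ℕ} (Φ : FrobSystem W p)

/-! ### Generalised Tate classes and words -/

section Words

variable {ι : Type v} [Fintype ι] [DecidableEq ι] {B : HBasis W X ι} {lam : ι → W.K}

theorem finrank_genU_pw (hB : IsEig Φ B lam) (n J : ℕ) :
    finrank W.K (genU Φ (pw X n) J) =
      Nat.card {I : Fin (n + 1) → ι // ∑ j, B.deg (I j) = 2 * J ∧
        IsT (p ^ Φ.e X) lam B.deg (cnt I)} := by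
  classical
  obtain ⟨bs, hbs⟩ := exists_monBasis B n
  let S := {I : Fin (n + 1) → ι // ∑ j, B.deg (I j) = 2 * J ∧ IsT (p ^ Φ.e X) lam B.deg (cnt I)}
  have hspan : genU Φ (pw X n) J = Submodule.span W.K (Set.range fun I : S => bs I.1) := by
    apply le_antisymm
    · intro c hc
      obtain ⟨s, hs, hc⟩ := (mem_genU Φ).1 hc
      rw [← bs.sum_repr c]
      refine Submodule.sum_mem _ fun I _ => ?_
      by_cases h0 : bs.repr c I = 0
      · rw [h0, zero_smul]; exact Submodule.zero_mem _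
      · exact Submodule.smul_mem _ _
          (Submodule.subset_span ⟨⟨I, isT_of_repr Φ hB hbs hs hc h0⟩, rfl⟩)
    · rw [Submodule.span_le]
      rintro _ ⟨I, rfl⟩
      change bs I.1 ∈ genU Φ (pw X n) J
      rw [hbs]
      exact (mem_genU Φ).2 (mon_genTate Φ hB I.2.2 I.2.1)
  have h1 := finrank_span_eq_card (R := W.K) (b := fun I : S => bs I.1)
    (bs.linearIndependent.comp _ Subtype.val_injective)
  rw [hspan, h1, Nat.card_eq_fintype_card]

/-- the generalised Tate classes are transported by isomorphisms -/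
theorem finrank_genU_iso (e : Y ≅ Z) (J : ℕ) :
    finrank W.K (genU Φ Y J) = finrank W.K (genU Φ Z J) := by
  have key : ∀ {Y Z : 𝒱.Obj} (e : Y ≅ Z), finrank W.K (genU Φ Z J) ≤ finrank W.K (genU Φ Y J) := by
    intro Y Z e
    have hinj : Function.Injective (W.map e.hom).toLinearMap := by
      intro a b hab
      have h1 : ∀ x, W.map e.inv (W.map e.hom x) = x := by
        intro x
        rw [← W.map_comp, e.inv_hom_id, W.map_id]
      rw [← h1 a, ← h1 b]
      exact congrArg _ hab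
    have hmap : ∀ x ∈ genU Φ Z J, (W.map e.hom).toLinearMap x ∈ genU Φ Y J :=
      fun x hx => (genFam Φ).map e.hom hx
    exact LinearMap.finrank_le_finrank_of_injective (f := (W.map e.hom).toLinearMap.restrict hmap)
      (fun a b hab => Subtype.ext (hinj (congrArg Subtype.val hab)))
  exact le_antisymm (key e.symm) (key e)

/-- the isomorphism of the square of a power with a power -/
noncomputable def sqIso (X : 𝒱.Obj) (n : ℕ) : sq X n ≅ pw X (2 * n + 1) :=
  pwIso X n n ≪≫ eqToIso (by rw [show n + 1 + n = 2 * n + 1 by ring])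

theorem finrank_genU_sq (n : ℕ) : finrank W.K (genU Φ (sq X n) ((n + 1) * X.dim)) =
    finrank W.K (genU Φ (pw X (2 * n + 1)) ((n + 1) * X.dim)) :=
  finrank_genU_iso Φ (sqIso X n) _

/-! ### Absolute values -/

lemma norm_lam [hp : Fact p.Prime] (hB : IsEig Φ B lam) {σ : W.K →+* ℂ} (hRH : RiemannHyp Φ σ X) (l : ι) :
    ‖σ (lam l)‖ ^ 2 = ((p : ℝ) ^ Φ.e X) ^ B.deg l := by
  have h1 := hRH 1 one_pos (B.deg l) (σ (lam l)) (by
    rw [frobPoly_eq, Polynomial.IsRoot.def, Polynomial.eval_map, Polynomial.eval₂_at_apply,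
      Polynomial.IsRoot.def.1 (root_charpoly hB l), map_zero])
  rw [h1, card, mul_one, Nat.cast_pow]

lemma word_iff [hp : Fact p.Prime] (hB : IsEig Φ B lam) {σ : W.K →+* ℂ} (hRH : RiemannHyp Φ σ X)
    {m J : ℕ} (I : Fin m → ι) :
    (∑ j, B.deg (I j) = 2 * J ∧ IsT (p ^ Φ.e X) lam B.deg (cnt I)) ↔
      ∃ s : ℕ, 0 < s ∧ (∏ j, lam (I j)) ^ s = (((p ^ Φ.e X : ℕ) : W.K) ^ J) ^ s := by
  constructor
  · rintro ⟨h1, -, s, hs, h2⟩
    refine ⟨2 * s, by positivity, ?_⟩
    rw [prod_cnt, h2, ← sum_cnt_nat, h1, ← pow_mul]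
    congr 1; ring
  · rintro ⟨s, hs, h⟩
    have hq : (1 : ℝ) < (p : ℝ) ^ Φ.e X := one_lt_pow₀ (by exact_mod_cast hp.out.one_lt) (Φ.e_pos X).ne'
    have h1 : ∑ j, B.deg (I j) = 2 * J := by
      have h2 := congrArg (fun x => ‖σ x‖ ^ 2) h
      simp only [map_pow, map_prod, map_natCast, norm_pow, norm_prod, Complex.norm_natCast] at h2
      have h3 : ((∏ j, ‖σ (lam (I j))‖) ^ s) ^ 2 = (((p : ℝ) ^ Φ.e X) ^ ∑ j, B.deg (I j)) ^ s := by
        rw [← pow_mul, mul_comm s 2, pow_mul, ← Finset.prod_pow]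
        congr 1
        rw [← Finset.prod_pow_eq_pow_sum]
        exact Finset.prod_congr rfl fun j _ => norm_lam Φ hB hRH (I j)
      have h4 : ((p : ℝ) ^ Φ.e X) ^ (s * ∑ j, B.deg (I j)) = ((p : ℝ) ^ Φ.e X) ^ (s * (2 * J)) := by
        calc ((p : ℝ) ^ Φ.e X) ^ (s * ∑ j, B.deg (I j))
            = (((p : ℝ) ^ Φ.e X) ^ ∑ j, B.deg (I j)) ^ s := by rw [mul_comm, pow_mul]
          _ = ((∏ j, ‖σ (lam (I j))‖) ^ s) ^ 2 := h3.symm
          _ = (((((p : ℝ) ^ Φ.e X)) ^ J) ^ s) ^ 2 := by rw [h2]; push_cast; rfl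
          _ = _ := by ring
      have h5 := pow_right_injective₀ (by linarith) hq.ne' h4
      exact Nat.eq_of_mul_eq_mul_left hs h5
    refine ⟨h1, ⟨J, by rw [← sum_cnt_nat, h1]; ring⟩, s, hs, ?_⟩
    rw [← prod_cnt, mul_comm 2, pow_mul, h, ← sum_cnt_nat, h1]
    push_cast
    ring

end Words

end Pool.Agent.Run7.h946.GL
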