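import Pool.Agent.Run7.h946.GL.WordA

/-!
# Duality of the eigenvalues, and pairs of words
-/

set_option autoImplicit false
set_option linter.unusedVariables false
set_option linter.unusedSectionVars false

open CategoryTheory AlgebraicGeometry CategoryTheory.Limits

universe u v

namespace Pool.Agent.Run7.h946.GL

open Pool.Agent.H914 Pool.Agent.H447 Pool.Agent.W534 Pool.Agent.Y163 Pool.Agent.R940 VarClass Obj
  WeilCohomology Module

variable {k : Type u} [Field k] {𝒱 : VarClass k} {ops : CycleOps 𝒱}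
  {W : WeilCohomology.{u, v} ops} {X Y Z U S : 𝒱.Obj} {p : ℕ} (Φ : FrobSystem W p)

section Dual

variable {ι : Type v} [Fintype ι] [DecidableEq ι] {B : HBasis W X ι} {lam : ι → W.K}

lemma gen_scalar {K : Type*} [Field K] {c μ x : K} (hx : x ≠ 0)
    (h : x ∈ (c • (1 : Module.End K K)).maxGenEigenspace μ) : c = μ := by
  rw [Module.End.mem_maxGenEigenspace] at h
  obtain ⟨n, hn⟩ := h
  have h1 : ∀ n : ℕ, ((c • (1 : Module.End K K) - μ • 1) ^ n) x = (c - μ) ^ n * x := by
    intro n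
    induction n with
    | zero => simp
    | succ n ih =>
      rw [pow_succ', Module.End.mul_apply, ih]
      simp only [LinearMap.sub_apply, LinearMap.smul_apply, Module.End.one_apply, smul_eq_mul]
      ring
  rw [h1] at hn
  have h2 := (mul_eq_zero.1 hn).resolve_right hx
  exact sub_eq_zero.1 (eq_zero_of_pow_eq_zero h2)

/-- **Poincaré duality for the eigenvalues.** -/
theorem exists_dual (hB : IsEig Φ B lam) :
    ∃ τ : Equiv.Perm ι, ∀ l, lam (τ l) * lam l = ((p ^ Φ.e X : ℕ) : W.K) ^ X.dim := by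
  classical
  let M : Matrix ι ι W.K := fun l m => W.tr X (B.b l * B.b m)
  have hdet : M.det ≠ 0 := by
    intro h0
    obtain ⟨v, hv, hM⟩ := Matrix.exists_vecMul_eq_zero_iff.2 h0
    have h1 : ∑ l, v l • B.b l = 0 := by
      apply W.tr_ext
      intro y
      rw [zero_mul, map_zero]
      have h2 : ∀ m, W.tr X ((∑ l, v l • B.b l) * B.b m) = 0 := by
        intro m
        have h3 := congrFun hM m
        rw [Finset.sum_mul, map_sum]
        simp only [smul_mul_assoc, map_smul, smul_eq_mul]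
        exact h3
      rw [← B.b.sum_repr y, Finset.mul_sum, map_sum]
      refine Finset.sum_eq_zero fun m _ => ?_
      rw [mul_smul_comm, map_smul, h2, smul_zero]
    apply hv
    funext l
    have h4 := congrArg (fun x => B.b.repr x l) h1
    simpa [Finsupp.single_apply] using h4
  obtain ⟨τ, hτ⟩ : ∃ τ : Equiv.Perm ι, ∏ l, M (τ l) l ≠ 0 := by
    by_contra hcon
    push Not at hcon
    apply hdet
    rw [Matrix.det_apply]
    exact Finset.sum_eq_zero fun τ _ => by rw [hcon τ, smul_zero]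
  refine ⟨τ, fun l => ?_⟩
  have h1 : M (τ l) l ≠ 0 := Finset.prod_ne_zero_iff.1 hτ l (Finset.mem_univ l)
  let β : W.H X →ₗ[W.K] W.H X →ₗ[W.K] W.K :=
    (LinearMap.mul W.K (W.H X)).compr₂ (W.tr X)
  have h2 := gen_bilin (β := β) (f := frob Φ X 1) (g := frob Φ X 1)
    (h := (((p ^ Φ.e X : ℕ) : W.K) ^ X.dim) • (1 : Module.End W.K W.K))
    (by
      intro a b
      change W.tr X (frob Φ X 1 a * frob Φ X 1 b) =
        (((p ^ Φ.e X : ℕ) : W.K) ^ X.dim) • W.tr X (a * b)
      rw [← R940.frob_mul', frob_apply, tr_iter, smul_eq_mul]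
      congr 1
      push_cast
      rw [mul_one, ← pow_mul]) (hB (τ l)) (hB l)
  exact (gen_scalar h1 h2).symm

lemma lam_ne [hp : Fact p.Prime] (hB : IsEig Φ B lam) (l : ι) : lam l ≠ 0 := by
  obtain ⟨τ, hτ⟩ := exists_dual Φ hB
  intro h0
  have h1 := hτ l
  rw [h0, mul_zero] at h1
  have h2 : ((p ^ Φ.e X : ℕ) : W.K) ≠ 0 := Nat.cast_ne_zero.2 (pow_pos hp.out.pos _).ne'
  exact pow_ne_zero _ h2 h1.symm

/-- the number of the words which give generalised Tate classes, as a number of pairs of words -/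
theorem card_words [hp : Fact p.Prime] (hB : IsEig Φ B lam) {σ : W.K →+* ℂ}
    (hRH : RiemannHyp Φ σ X) (n : ℕ) :
    finrank W.K (genU Φ (sq X n) ((n + 1) * X.dim)) =
      Nat.card {x : (Fin (n + 1) → ι) × (Fin (n + 1) → ι) //
        ∃ s : ℕ, 0 < s ∧ (∏ t, lam (x.1 t)) ^ s = (∏ t, lam (x.2 t)) ^ s} := by
  obtain ⟨τ, hτ⟩ := exists_dual Φ hB
  rw [finrank_genU_sq, finrank_genU_pw Φ hB]
  have hlen : 2 * n + 1 + 1 = (n + 1) + (n + 1) := by ring
  set q : W.K := ((p ^ Φ.e X : ℕ) : W.K) with hq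
  have hq0 : q ≠ 0 := Nat.cast_ne_zero.2 (pow_pos hp.out.pos _).ne'
  -- the bijection of the words with the pairs
  let e : (Fin (2 * n + 1 + 1) → ι) ≃ (Fin (n + 1) → ι) × (Fin (n + 1) → ι) :=
    ((finCongr hlen).arrowCongr (Equiv.refl ι)).trans
      ((Fin.appendEquiv (n + 1) (n + 1)).symm.trans
        ((Equiv.refl _).prodCongr ((Equiv.refl _).arrowCongr τ)))
  refine Nat.card_congr (e.subtypeEquiv fun I => ?_)
  rw [word_iff Φ hB hRH]
  have h1 : ∀ t, (e I).1 t = I (Fin.cast hlen.symm (Fin.castAdd (n + 1) t)) := fun t => rfl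
  have h2 : ∀ t, (e I).2 t = τ (I (Fin.cast hlen.symm (Fin.natAdd (n + 1) t))) := fun t => rfl
  have h3 : ∏ j, lam (I j) = (∏ t, lam ((e I).1 t)) *
      ∏ t, lam (I (Fin.cast hlen.symm (Fin.natAdd (n + 1) t))) := by
    simp only [h1]
    rw [← Fin.prod_univ_add (fun j => lam (I (Fin.cast hlen.symm j)))]
    exact (Fintype.prod_equiv (finCongr hlen.symm) _ _ fun j => rfl).symm
  have h4 : (∏ t, lam ((e I).2 t)) *
      ∏ t, lam (I (Fin.cast hlen.symm (Fin.natAdd (n + 1) t))) = q ^ ((n + 1) * X.dim) := by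
    simp only [h2]
    rw [← Finset.prod_mul_distrib]
    simp only [hτ]
    rw [Finset.prod_const, Finset.card_univ, Fintype.card_fin, ← pow_mul, mul_comm X.dim]
  have h5 : ∏ t, lam (I (Fin.cast hlen.symm (Fin.natAdd (n + 1) t))) ≠ 0 :=
    Finset.prod_ne_zero_iff.2 fun t _ => lam_ne Φ hB _
  rw [h3, ← h4]
  refine exists_congr fun s => and_congr_right fun hs => ?_
  rw [mul_pow, mul_pow]
  exact mul_left_inj' (pow_ne_zero _ h5)

end Dual

end Pool.Agent.Run7.h946.GL
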